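import Pool.Agent.Helper53.Comp.Defs
import Pool.Agent.Helper20.Mono.GoalsH

/-!
# Packets K: the fan of `P`

Real weights `w`, a set `V` of coordinates such that `w i = 1` for `i ∉ V`, and a function `v` on
the simplices instead of `vol ^ 2`.
-/

namespace Mono

namespace Comp

open Finset Filter Topology

variable {n : ℕ}

/-! ### Definitions -/

/-- `ℓ_V(G)`. -/
def ellV (Φ : Fan n) (V : Finset (Fin n)) (G : Finset (Fin n → ℤ)) : ℤ :=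
  ∑ T ∈ (univ : Finset (Finset (Fin n))).filter (fun T => cs G ⊆ T ∧ V ⊆ T),
    (-1) ^ (n - T.card) * (((Φ.mxT T).filter (fun τ => G ⊆ τ)).card : ℤ)

/-- Every monomial covering the coordinates outside `cs G ∪ V` vanishes modulo `θ`. -/
def StarV (Φ : Fan n) (V : Finset (Fin n)) (G : Finset (Fin n → ℤ)) : Prop :=
  ∀ m : (Fin n → ℤ) →₀ ℕ, (∀ i, i ∉ cs G → i ∉ V → ∃ u ∈ m.support, u i ≠ 0) →
    MvPolynomial.monomial m (1 : ℝ) ∈ Φ.bad G ⊔ Ideal.span (Set.range Φ.theta)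

/-- `σ` is the support of the vector `w`, with coefficients `c`. -/
def IsClassR (Φ : Fan n) (w : Fin n → ℝ) (σ : Finset (Fin n → ℤ)) (c : (Fin n → ℤ) → ℝ) : Prop :=
  Φ.IsFace σ ∧ (∀ t ∈ σ, c t ≠ 0) ∧ w = ∑ t ∈ σ, c t • toR t

/-- The vertices of `σ \ Z` which are alone at height one in some coordinate `i ∉ V` that vanishes
on `B`. -/
def apexR (V : Finset (Fin n)) (Z σ B : Finset (Fin n → ℤ)) : Finset (Fin n → ℤ) :=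
  (σ \ Z).filter (fun p => ∃ i, i ∉ V ∧ p i = 1 ∧ (∀ t ∈ σ, t ≠ p → t i = 0) ∧ ∀ u ∈ B, u i = 0)

/-- The vanishing property. -/
def KillR (Φ : Fan n) (V : Finset (Fin n)) (Z σ : Finset (Fin n → ℤ)) : Prop :=
  ∀ w : Fin n → ℝ, Φ.Generic w → ∀ B : Finset (Fin n → ℤ), Disjoint B σ →
  ∀ (d : ℕ) (y : MvPolynomial (Fin n → ℤ) ℝ), y.IsHomogeneous d →
    B.card + (apexR V Z σ B).card + d + σ.card ≤ n →
    Φ.Esum σ w ((∏ u ∈ B, MvPolynomial.X u) * (∏ p ∈ apexR V Z σ B, MvPolynomial.X p) * y) = 0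

/-- Number of points `w + b`, `b ∈ ℤ^n`, of the open box of `G` with `ψ ≡ a` modulo `ℤ`. -/
noncomputable def lstarR (Z : Finset (Fin n → ℤ)) (w : Fin n → ℝ) (a : ℝ)
    (G : Finset (Fin n → ℤ)) : ℕ :=
  Nat.card {b : Fin n → ℤ // ∃ c : (Fin n → ℤ) → ℝ, (∀ u ∈ G, 0 < c u ∧ c u < 1) ∧
    w + toR b = ∑ u ∈ G, c u • toR u ∧ ∃ z : ℤ, ∑ u ∈ G \ Z, c u - a = z}

/-- The condition `∑_{i ∈ V} κ_i w_i - N a ∈ ℤ` on the simplex `τ`. -/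
def CondR (Z : Finset (Fin n → ℤ)) (V : Finset (Fin n)) (w : Fin n → ℝ) (a : ℝ)
    (τ : Finset (Fin n → ℤ)) : Prop :=
  ∃ κ : Fin n → ℤ, (∀ i, i ∉ cs τ → κ i = 0) ∧ (∀ u ∈ τ \ Z, κ ⬝ᵥ u = (latDistZ Z τ : ℤ)) ∧
    (∀ u ∈ τ ∩ Z, κ ⬝ᵥ u = 0) ∧ ∃ z : ℤ, ∑ i ∈ V, (κ i : ℝ) * w i - latDistZ Z τ * a = z

open Classical in
/-- The twisted multiplicity, as a sum over simplices; `S` is a set of height-zero generators. -/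
noncomputable def multR (Φ : Fan n) (Z S : Finset (Fin n → ℤ)) (V : Finset (Fin n))
    (w : Fin n → ℝ) (a : ℝ) : ℤ :=
  ∑ τ ∈ Φ.faces.filter (fun τ => S ⊆ τ ∧ ¬ τ ⊆ Z ∧ τ.card = (cs τ).card ∧ V ⊆ cs τ ∧
    CondR Z V w a τ), (-1) ^ (n - τ.card) * (volZ Z τ : ℤ)

/-- The contribution of the maximal cone `F`; `v` replaces `vol ^ 2`. -/
noncomputable def WtermR (v : Finset (Fin n → ℤ) → ℝ) (Z F : Finset (Fin n → ℤ)) (s : ℝ)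
    (w : Fin n → ℝ) : ℝ :=
  (1 / ((idx (F : Set (Fin n → ℤ)) : ℝ) * (s + psi Z F w))) *
    ∑ τ ∈ (F \ Z).powerset, (-1) ^ τ.card * v τ / ∏ u ∈ F \ τ, crd F w u

/-- The function `W^v(s, w)`. -/
noncomputable def WR (Φ : Fan n) (v : Finset (Fin n → ℤ) → ℝ) (Z : Finset (Fin n → ℤ)) (s : ℝ)
    (w : Fin n → ℝ) : ℝ := ∑ F ∈ Φ.mx, WtermR v Z F s w

/-- `v` does not change if a vertex is added which is alone at height one in a coordinate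
outside `V`. -/
def ApexInv (V : Finset (Fin n)) (v : Finset (Fin n → ℤ) → ℝ) : Prop :=
  ∀ (τ : Finset (Fin n → ℤ)) (p : Fin n → ℤ) (i : Fin n), i ∉ V → (∀ u ∈ τ, u i = 0) → p i = 1 →
    v (insert p τ) = v τ

/-- The part of the numerator of the class `σ` that does not depend on `s`. -/
noncomputable def Y0R (Φ : Fan n) (v : Finset (Fin n → ℤ) → ℝ) (Z σ : Finset (Fin n → ℤ))
    (c : (Fin n → ℤ) → ℝ) : MvPolynomial (Fin n → ℤ) ℝ :=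
  ∑ B ∈ ((Φ.vert \ Z) \ σ).powerset, (∏ u ∈ B, MvPolynomial.X u) *
    ∑ ρ ∈ (σ \ Z).powerset, MvPolynomial.C ((-1) ^ (ρ.card + B.card) * v (ρ ∪ B)) *
      ∏ t ∈ σ \ ρ, tgeo (c t) (MvPolynomial.X t)

/-- The (truncated) numerator of the class `σ`. -/
noncomputable def YhatR (Φ : Fan n) (v : Finset (Fin n → ℤ) → ℝ) (Z σ : Finset (Fin n → ℤ))
    (c : (Fin n → ℤ) → ℝ) (s : ℝ) : MvPolynomial (Fin n → ℤ) ℝ :=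
  tgeo (s + ∑ t ∈ σ \ Z, c t) (∑ u ∈ Φ.vert \ Z, MvPolynomial.X u) * Y0R Φ v Z σ c

/-! ### Packets -/

/-- K1. -/
def AlgMainV : Prop := ∀ (n : ℕ) (Φ : Fan n), Φ.Coherent → ∀ G : Finset (Fin n → ℤ),
  Φ.IsFace G → ∀ V : Finset (Fin n), 0 ≤ ellV Φ V G ∧ (ellV Φ V G = 0 → StarV Φ V G)

open Classical in
/-- K2. -/
def BoxCountR : Prop := ∀ (n : ℕ) (Z τ : Finset (Fin n → ℤ)) (V : Finset (Fin n))
  (w : Fin n → ℝ), ¬ τ ⊆ Z → Indep τ → τ.card = (cs τ).card → V ⊆ cs τ →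
  (∀ i, i ∉ V → w i = 1) → ∀ a : ℝ,
  ∑ G ∈ τ.powerset, lstarR Z w a G = if CondR Z V w a τ then volZ Z τ else 0

/-- K2f. The box sets are finite. -/
def BoxFinite : Prop := ∀ (n : ℕ) (Z G : Finset (Fin n → ℤ)) (w : Fin n → ℝ) (a : ℝ),
  Finite {b : Fin n → ℤ // ∃ c : (Fin n → ℤ) → ℝ, (∀ u ∈ G, 0 < c u ∧ c u < 1) ∧
    w + toR b = ∑ u ∈ G, c u • toR u ∧ ∃ z : ℤ, ∑ u ∈ G \ Z, c u - a = z}

/-- K3. -/
def MultFormulaR : Prop := ∀ (n : ℕ) (Φ : Fan n) (Z S : Finset (Fin n → ℤ)) (V : Finset (Fin n))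
  (w : Fin n → ℝ), Φ.Newton Z → S ⊆ Z → (∀ i, i ∉ V → w i = 1) →
  ∀ a : ℝ, (∀ z : ℤ, a ≠ z) →
  multR Φ Z S V w a = ∑ G ∈ Φ.faces, (lstarR Z w a G : ℤ) * ellV Φ V (G ∪ S)

/-- K4. -/
def ClassMainR : Prop := ∀ (n : ℕ) (Φ : Fan n), Φ.Coherent → ∀ (Z σ : Finset (Fin n → ℤ))
  (V : Finset (Fin n)) (w : Fin n → ℝ) (c : (Fin n → ℤ) → ℝ), Φ.Newton Z →
  (∀ i, i ∉ V → w i = 1) → IsClassR Φ w σ c → (∀ z : ℤ, ∑ t ∈ σ \ Z, c t ≠ z) →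
  multR Φ Z (σ ∩ Z) V w (∑ t ∈ σ \ Z, c t) = 0 → StarV Φ V (ncore Z σ c)

/-- K5: the kill theorem. -/
def KillThm : Prop := ∀ (n : ℕ) (Φ : Fan n) (Z : Finset (Fin n → ℤ)) (V : Finset (Fin n))
  (w w' : Fin n → ℝ) (σ σ' : Finset (Fin n → ℤ)) (c c' : (Fin n → ℤ) → ℝ),
  IsClassR Φ w σ c → IsClassR Φ w' σ' c' → σ ⊆ σ' → (∀ i ∈ V, w' i < w i) →
  (∀ i, i ∉ V → w i = 1 ∧ w' i = 1) →
  (∀ t ∈ σ', ∀ z : ℤ, c' t = z → t ∈ σ ∧ c' t = c t) →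
  StarV Φ V (ncore Z σ c) → KillR Φ V Z σ'

/-- K6: the limit of the contribution of one class. -/
def ClassLimitR : Prop := ∀ (n : ℕ) (Φ : Fan n) (v : Finset (Fin n → ℤ) → ℝ)
  (Z σ : Finset (Fin n → ℤ)) (w : Fin n → ℝ) (c : (Fin n → ℤ) → ℝ), (∀ i, 0 < w i) →
  IsClassR Φ w σ c → ∀ η : Fin n → ℝ, Φ.Generic η → ∀ s : ℝ, s + ∑ t ∈ σ \ Z, c t ≠ 0 →
  Tendsto (fun ε : ℝ => ∑ F ∈ Φ.mx.filter (fun F => σ ⊆ F), WtermR v Z F s (w + ε • η))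
    (𝓝[>] 0) (𝓝 (Φ.Esum σ η (MvPolynomial.homogeneousComponent (n - σ.card)
      (YhatR Φ v Z σ c s))))

/-- K7: killed classes do not contribute. -/
def KillZeroR : Prop := ∀ (n : ℕ) (Φ : Fan n) (v : Finset (Fin n → ℤ) → ℝ)
  (Z σ : Finset (Fin n → ℤ)) (V : Finset (Fin n)) (w : Fin n → ℝ) (c : (Fin n → ℤ) → ℝ),
  (∀ i, i ∉ V → w i = 1) → ApexInv V v → IsClassR Φ w σ c → KillR Φ V Z σ →
  ∀ η : Fin n → ℝ, Φ.Generic η → ∀ s : ℝ,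
  Φ.Esum σ η (MvPolynomial.homogeneousComponent (n - σ.card) (YhatR Φ v Z σ c s)) = 0

/-- K8: limit of `W^v` at `w`. -/
def LimitWR : Prop := ∀ (n : ℕ) (Φ : Fan n) (v : Finset (Fin n → ℤ) → ℝ)
  (Z : Finset (Fin n → ℤ)) (V : Finset (Fin n)) (w η : Fin n → ℝ)
  (fc : Finset (Fin n → ℤ) → Finset (Fin n → ℤ)), (∀ i, 0 < w i) → (∀ i, i ∉ V → w i = 1) →
  ApexInv V v → Φ.Generic η → (∀ σ ∈ Φ.faces, fc σ ∈ Φ.mx ∧ σ ⊆ fc σ) →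
  ∃ q : Finset (Fin n → ℤ) → Polynomial ℝ,
  (∀ σ, (q σ).natDegree ≤ n + 1) ∧
  (∀ σ, q σ ≠ 0 → σ ∈ Φ.faces ∧ (∃ c, IsClassR Φ w σ c) ∧ ¬ KillR Φ V Z σ) ∧
  ∀ s : ℝ, (∀ F ∈ Φ.mx, s + psi Z F w ≠ 0) →
    Tendsto (fun ε : ℝ => WR Φ v Z s (w + ε • η)) (𝓝[>] 0)
      (𝓝 (∑ σ ∈ Φ.faces, (q σ).eval (1 / (s + psi Z (fc σ) w))))

/-- K9: unkilled classes near `w`. -/
def NodeKill : Prop := ∀ (n : ℕ) (Φ : Fan n), Φ.Coherent → ∀ (Z : Finset (Fin n → ℤ))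
  (V : Finset (Fin n)) (w δ : Fin n → ℝ), Φ.Newton Z → (∀ i ∈ V, 0 < δ i) →
  (∀ i, i ∉ V → w i = 1 ∧ δ i = 0) →
  ∃ ε₀ : ℝ, 0 < ε₀ ∧ ∀ ε : ℝ, 0 < ε → ε < ε₀ → ∀ (σ : Finset (Fin n → ℤ))
    (c : (Fin n → ℤ) → ℝ), IsClassR Φ (w - ε • δ) σ c → ¬ KillR Φ V Z σ →
    ∀ F ∈ Φ.mx, σ ⊆ F → (∃ z : ℤ, psi Z F w = z) ∨
      ∃ S ⊆ Z, multR Φ Z S V w (psi Z F w) ≠ 0

end Comp

end Mono
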