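import Pool.Agent.Helper53.Comp.GoalsP
import Pool.Agent.Helper20.Mono.GoalsS

/-!
# Packets G: divided differences, partial fractions, poles
-/

namespace Mono

namespace Comp

open Finset Filter Topology

variable {n k : ℕ}

/-! ### Definitions -/

/-- The multisets of nodes in the blocks. -/
noncomputable def ms (blk : Fin n → Fin k) (ρ : Fin n → ℝ) : Fin k → Multiset ℝ :=
  fun i => (univ.filter (fun j => blk j = i)).val.map ρ

/-- The multilinear divided difference of `h` at sets of nodes. -/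
noncomputable def DDS (S : Fin k → Finset ℝ) (h : (Fin k → ℝ) → ℝ) : ℝ :=
  ∑ x ∈ Fintype.piFinset S, (∏ i, ∏ y ∈ (S i).erase (x i), 1 / (y - x i)) * h x

/-- `F` is a continuous extension of the divided difference of `h`. -/
def Ext (Φ : Fan k) (h : (Fin k → ℝ) → ℝ) (F : (Fin k → Multiset ℝ) → ℝ) : Prop :=
  (∀ (n : ℕ) (blk : Fin n → Fin k) (ρ θ : Fin n → ℝ), Function.Surjective blk →
    (∀ j, 0 < ρ j) →
    Tendsto (fun ε : ℝ => F (ms blk (ρ + ε • θ))) (𝓝[>] 0) (𝓝 (F (ms blk ρ)))) ∧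
  ∀ S : Fin k → Finset ℝ, (∀ i, (S i).Nonempty) → (∀ i, ∀ x ∈ S i, 0 < x) →
    (∀ x ∈ Fintype.piFinset S, Φ.Generic x) → F (fun i => (S i).val) = DDS S h

/-- A positive multiset. -/
def PosM (m : Multiset ℝ) : Prop := ∀ x ∈ m, 0 < x

/-- The recursion of divided differences, in one variable. -/
def RecS (f : Multiset ℝ → ℝ) : Prop := ∀ (m : Multiset ℝ) (x y : ℝ), PosM m → 0 < x → 0 < y →
  x ≠ y → (y - x) * f (x ::ₘ y ::ₘ m) = f (x ::ₘ m) - f (y ::ₘ m)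

/-- Partial fractions: `∏_{x ∈ m} 1 / (z + x) = ∑ red m (r, p) / (z + r)^(p+1)`. -/
def IsRed (red : Multiset ℝ → (ℝ × ℕ →₀ ℝ)) : Prop := ∀ m : Multiset ℝ, m ≠ 0 → PosM m →
  (∀ x ∈ (red m).support, x.1 ∈ m) ∧
  (∀ z : ℝ, 0 < z → (m.map (fun x => 1 / (z + x))).prod =
    (red m).sum (fun x c => c / (z + x.1) ^ (x.2 + 1))) ∧
  ∀ f : Multiset ℝ → ℝ, RecS f →
    f m = (red m).sum (fun x c => c * f (Multiset.replicate (x.2 + 1) x.1))

/-- The constant multisets. -/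
noncomputable def repl (x : Fin k → ℝ × ℕ) : Fin k → Multiset ℝ :=
  fun i => Multiset.replicate ((x i).2 + 1) (x i).1

/-- Möbius inversion of `vG`. -/
noncomputable def vE (e : Fin k → ℕ) (τ : Finset (Fin k → ℤ)) : ℝ :=
  ∑ d ∈ Fintype.piFinset (fun i => (e i).divisors),
    (∏ i, ((ArithmeticFunction.moebius (e i / d i) : ℤ) : ℝ)) * vG d τ

/-- Möbius inversion of the functions `F d`. -/
noncomputable def FE (F : (Fin k → ℕ) → (Fin k → Multiset ℝ) → ℝ) (e : Fin k → ℕ)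
    (M : Fin k → Multiset ℝ) : ℝ :=
  ∑ d ∈ Fintype.piFinset (fun i => (e i).divisors),
    (∏ i, ((ArithmeticFunction.moebius (e i / d i) : ℤ) : ℝ)) * F d M

open Classical in
/-- The twisted local zeta function of a germ: only the strata whose multiplicities are all
divisible by `e`. -/
noncomputable def Ze (g : List Stratum) (e : ℕ) : RatFunc ℂ :=
  (g.map (fun t => if ∀ q ∈ t.2, e ∣ q.1 then RatFunc.C (t.1 : ℂ) *
    (t.2.map (fun q => 1 / (RatFunc.C (q.1 : ℂ) * RatFunc.X + RatFunc.C (q.2 : ℂ)))).prod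
    else 0)).sum

/-- Every stratum has at least one component, the numerical data are positive. -/
def GoodG (g : List Stratum) : Prop := ∀ t ∈ g, t.2 ≠ [] ∧ ∀ q ∈ t.2, 0 < q.1 ∧ 0 < q.2

/-- The strong monodromy property of a germ: the poles of all twisted zeta functions give
elements of `E`, except perhaps a simple pole `-1` of the zeta function itself. -/
def SMC (g : List Stratum) (E : Set ℂ) : Prop := ∀ e : ℕ, 0 < e → ∀ z : ℂ,
  (Ze g e).denom.eval z = 0 → Complex.exp (2 * Real.pi * Complex.I * z) ∈ E ∨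
    (e = 1 ∧ z = -1 ∧ (Ze g e).denom.rootMultiplicity (-1) ≤ 1)

open Classical in
/-- The partial fractions of the twisted zeta function of a germ. -/
noncomputable def coefG (red : Multiset ℝ → (ℝ × ℕ →₀ ℝ)) (g : List Stratum) (e : ℕ) :
    ℝ × ℕ →₀ ℝ :=
  (g.map (fun t => if ∀ q ∈ t.2, e ∣ q.1 then
    ((t.1 : ℝ) * (t.2.map (fun q => (q.1 : ℝ)⁻¹)).prod) •
      red ((t.2.map (fun q => (q.2 : ℝ) / (q.1 : ℝ)) : List ℝ) : Multiset ℝ) else 0)).sum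

open Classical in
/-- The coordinates that are not of the type `(1, 1, 0)`. -/
noncomputable def Vset (e : Fin k → ℕ) (x : Fin k → ℝ × ℕ) : Finset (Fin k) :=
  univ.filter (fun i => ¬ (e i = 1 ∧ (x i).1 = 1 ∧ (x i).2 = 0))

/-! ### Packets -/

open Classical in
/-- G1: existence of the extension, and the formula for all charts. -/
def ExtExists : Prop := ∀ (k : ℕ) (A Z : Finset (Fin k → ℤ)) (Φ : Fan k), 0 < k → Tri A Z Φ →
  ∀ D : Fin k → ℕ, (∀ i, 0 < D i) → ∀ s : ℝ, 0 < s → ∃ F : (Fin k → Multiset ℝ) → ℝ,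
  Ext Φ (WR Φ (vG D) Z s) F ∧
  ∀ (n : ℕ) (blk : Fin n → Fin k) (N : Fin n → ℕ), Function.Surjective blk → (∀ j, 0 < N j) →
    (∀ i, blkGcd blk N i = D i) → ∀ T : Fan n, Adapted (A.image (lift blk N)) T →
    ∀ ρ : Fin n → ℝ, (∀ j, 0 < ρ j) →
    (s + 1) * ZrealR (fun j => (N j : ℝ) * ρ j) (A.image (lift blk N)) T s =
      ∏ j, ((N j : ℝ) * ρ j)⁻¹ - s * ((∏ j, (N j : ℝ)⁻¹) * F (ms blk ρ))

/-- G2a: the recursion of divided differences. -/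
def DDSRec : Prop := ∀ (k : ℕ) (S : Fin k → Finset ℝ) (i : Fin k) (l : Finset ℝ) (x y : ℝ)
  (h : (Fin k → ℝ) → ℝ), x ∉ l → y ∉ l → x ≠ y →
  (y - x) * DDS (Function.update S i (insert x (insert y l))) h =
    DDS (Function.update S i (insert x l)) h - DDS (Function.update S i (insert y l)) h

/-- G2: the recursion for the extension. -/
def ExtRec : Prop := ∀ (k : ℕ) (Φ : Fan k) (h : (Fin k → ℝ) → ℝ) (F : (Fin k → Multiset ℝ) → ℝ),
  Ext Φ h F → ∀ M : Fin k → Multiset ℝ, (∀ i, M i ≠ 0 ∧ PosM (M i)) → ∀ i,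
  RecS (fun m => F (Function.update M i m))

/-- G3: partial fractions. -/
def RedExists : Prop := ∃ red : Multiset ℝ → (ℝ × ℕ →₀ ℝ), IsRed red

/-- G4: partial fractions in all variables. -/
def RedMulti : Prop := ∀ red, IsRed red → ∀ (k : ℕ) (Φ : Fan k) (h : (Fin k → ℝ) → ℝ)
  (F : (Fin k → Multiset ℝ) → ℝ), Ext Φ h F → ∀ M : Fin k → Multiset ℝ,
  (∀ i, M i ≠ 0 ∧ PosM (M i)) →
  F M = ∑ x ∈ Fintype.piFinset (fun i => (red (M i)).support),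
    (∏ i, red (M i) (x i)) * F (repl x)

/-- G5: limits of rational functions. -/
def LimLemma : Prop := ∀ (ι : Type) (I : Finset ι) (G : Finset ℝ) (D : ℕ)
  (q : ℝ → ι → Polynomial ℝ) (a : ℝ → ι → ℝ) (a₀ : ι → ℝ) (R : ℝ → ℝ),
  (∀ ε, ∀ i ∈ I, (q ε i).natDegree ≤ D) → (∀ i ∈ I, Tendsto (fun ε => a ε i) (𝓝[>] 0) (𝓝 (a₀ i))) →
  (∀ i ∈ I, 0 < a₀ i) → (∀ᶠ ε : ℝ in 𝓝[>] 0, ∀ i ∈ I, q ε i ≠ 0 → a₀ i ∈ G) →
  (∀ s : ℝ, 0 < s → Tendsto (fun ε => ∑ i ∈ I, (q ε i).eval (1 / (s + a ε i))) (𝓝[>] 0)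
    (𝓝 (R s))) →
  ∃ (m : ℕ) (Q : Polynomial ℝ), ∀ s : ℝ, 0 < s → R s * ∏ b ∈ G, (s + b) ^ m = Q.eval s

/-- G6: Möbius inversion. -/
def Moebius : Prop := (∀ (k : ℕ) (e : Fin k → ℕ) (V : Finset (Fin k)), (∀ i, 0 < e i) →
    (∀ i, i ∉ V → e i = 1) → ApexInv V (vE e)) ∧
  (∀ (k : ℕ) (Z : Finset (Fin k → ℤ)) (Φ : Fan k) (s : ℝ)
    (F : (Fin k → ℕ) → (Fin k → Multiset ℝ) → ℝ),
    (∀ D, (∀ i, 0 < D i) → Ext Φ (WR Φ (vG D) Z s) (F D)) →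
    ∀ e, (∀ i, 0 < e i) → Ext Φ (WR Φ (vE e) Z s) (FE F e)) ∧
  ∀ (k : ℕ) (F : (Fin k → ℕ) → (Fin k → Multiset ℝ) → ℝ) (D : Fin k → ℕ), (∀ i, 0 < D i) →
    ∀ M, F D M = ∑ e ∈ Fintype.piFinset (fun i => (D i).divisors), FE F e M

/-- G7: the terms of the expansion are rational functions of `s`, with good poles. -/
def NodeLim : Prop := ∀ (k : ℕ) (A Z : Finset (Fin k → ℤ)) (Φ : Fan k), 0 < k → Tri A Z Φ →
  Φ.Coherent → ∀ (e : Fin k → ℕ) (x : Fin k → ℝ × ℕ), (∀ i, 0 < e i) → (∀ i, 0 < (x i).1) →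
  ∀ F : ℝ → (Fin k → Multiset ℝ) → ℝ, (∀ s, 0 < s → Ext Φ (WR Φ (vE e) Z s) (F s)) →
  ∃ (G : Finset ℝ) (m : ℕ) (Q : Polynomial ℝ),
    (∀ a ∈ G, 0 < a ∧ ((∃ z : ℤ, a = z) ∨
      ∃ S ⊆ Z, multR Φ Z S (Vset e x) (fun i => (x i).1) a ≠ 0)) ∧
    ∀ s : ℝ, 0 < s → F s (repl x) * ∏ b ∈ G, (s + b) ^ m = Q.eval s

/-- G8: nonzero coefficients give poles. -/
def CoefPole : Prop := ∀ red, IsRed red → ∀ (g : List Stratum), GoodG g → ∀ (e : ℕ) (x : ℝ × ℕ),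
  coefG red g e x ≠ 0 → 0 < x.1 ∧ (Ze g e).denom.eval (-(x.1 : ℂ)) = 0 ∧
    (0 < x.2 → 2 ≤ (Ze g e).denom.rootMultiplicity (-(x.1 : ℂ)))

/-- G9: the expansion of the zeta function. -/
def Collect : Prop := ∀ red, IsRed red → ∀ (k : ℕ) (A Z : Finset (Fin k → ℤ)) (Φ : Fan k),
  0 < k → Tri A Z Φ → ∀ g : Fin k → List Stratum, (∀ i, GoodG (g i)) →
  ∀ T : ∀ I : (i : Fin k) → Fin (g i).length, Fan (dimD fun i => ((g i).get (I i)).2),
  (∀ I, Adapted (chartA A fun i => ((g i).get (I i)).2) (T I)) →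
  ∀ F : ℝ → (Fin k → ℕ) → (Fin k → Multiset ℝ) → ℝ,
  (∀ s, 0 < s → ∀ D, (∀ i, 0 < D i) → Ext Φ (WR Φ (vG D) Z s) (F s D) ∧
    ∀ (n : ℕ) (blk : Fin n → Fin k) (N : Fin n → ℕ), Function.Surjective blk → (∀ j, 0 < N j) →
      (∀ i, blkGcd blk N i = D i) → ∀ T : Fan n, Adapted (A.image (lift blk N)) T →
      ∀ ρ : Fin n → ℝ, (∀ j, 0 < ρ j) →
      (s + 1) * ZrealR (fun j => (N j : ℝ) * ρ j) (A.image (lift blk N)) T s =
        ∏ j, ((N j : ℝ) * ρ j)⁻¹ - s * ((∏ j, (N j : ℝ)⁻¹) * F s D (ms blk ρ))) →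
  ∃ (C₀ : ℝ) (B : ℕ), ∀ s : ℝ, 0 < s → (ZF A g T).denom.eval (s : ℂ) ≠ 0 ∧
    RatFunc.eval (RingHom.id ℂ) (s : ℂ) (ZF A g T) = (((C₀ -
      s * ∑ e ∈ Fintype.piFinset (fun _ : Fin k => Icc 1 B),
        ∑ x ∈ Fintype.piFinset (fun i => (coefG red (g i) (e i)).support),
          (∏ i, coefG red (g i) (e i) (x i)) * FE (F s) e (repl x)) / (s + 1) : ℝ) : ℂ)

/-- G10: poles of a rational function known at the positive real numbers. -/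
def PoleR : Prop := ∀ (Z : RatFunc ℂ) (Y : ℝ → ℝ) (G : Finset ℝ) (m : ℕ) (Q : Polynomial ℝ),
  (∀ s : ℝ, 0 < s → Z.denom.eval (s : ℂ) ≠ 0 ∧
    RatFunc.eval (RingHom.id ℂ) (s : ℂ) Z = ((Y s : ℝ) : ℂ)) →
  (∀ s : ℝ, 0 < s → Y s * ∏ b ∈ G, (s + b) ^ m = Q.eval s) →
  ∀ s₀ : ℂ, Z.denom.eval s₀ = 0 → ∃ b ∈ G, s₀ = -(b : ℂ)

/-- G11: from simplices to faces. -/
def Link : Prop := ∀ (k : ℕ) (A Z S : Finset (Fin k → ℤ)) (Φ : Fan k) (b : Fin k → ℝ),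
  Tri A Z Φ → BFan A Z b Φ → (∀ i, 0 < b i) → S ⊆ Z → ∀ (V : Finset (Fin k)) (w : Fin k → ℝ)
  (a : ℝ), multR Φ Z S V w a ≠ 0 →
  ∃ K : Finset (Fin k), multS A K b (V \ K)
    (fun i => Complex.exp (2 * Real.pi * Complex.I * (-(w i : ℂ))))
    (Complex.exp (2 * Real.pi * Complex.I * (-(a : ℂ)))) ≠ 0

/-- The theorem for germs with the strong monodromy property. -/
def MainSMC : Prop := ∀ (k : ℕ) (A : Finset (Fin k → ℤ)) (b : Fin k → ℝ), A.Nonempty →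
  (∀ v ∈ A, ∀ i, 0 ≤ v i) → (0 : Fin k → ℤ) ∉ A → (∀ i, 0 < b i) → LinearIndependent ℚ b →
  ∀ (g : Fin k → List Stratum) (E : Fin k → Set ℂ), (∀ i, GoodG (g i)) →
  (∀ i, SMC (g i) (E i)) →
  (∀ I : (i : Fin k) → Fin (g i).length, ∃ T : Fan (dimD fun i => ((g i).get (I i)).2),
    Adapted (chartA A fun i => ((g i).get (I i)).2) T) ∧
  ∀ T : ∀ I : (i : Fin k) → Fin (g i).length, Fan (dimD fun i => ((g i).get (I i)).2),
  (∀ I, Adapted (chartA A fun i => ((g i).get (I i)).2) (T I)) →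
  ∀ s₀ : ℂ, (ZF A g T).denom.eval s₀ = 0 → (∃ z : ℤ, s₀ = z) ∨
    ∃ (K V : Finset (Fin k)) (lam : Fin k → ℂ), Disjoint V K ∧ (∀ i ∈ V, lam i ∈ E i) ∧
      multS A K b V lam (Complex.exp (2 * Real.pi * Complex.I * s₀)) ≠ 0

end Comp

end Mono
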