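import Pool.Agent.Helper53.Comp.GoalsC

/-! Packet C2: the numerical data of a sequence of blowing ups. -/

namespace Mono

namespace Comp

open Finset

namespace PC2

/-- The invariants. -/
structure Inv (G : Graph) : Prop where
  pos : ∀ p < G.size, 0 < G.N p ∧ 0 < G.ν p
  cpos : ∃ p < G.size, 0 < G.c p
  edge : ∀ e ∈ G.E, e.1 < e.2 ∧ e.2 < G.size
  f : ∀ p < G.size, ((G.ν p : ℤ) - 1) * G.c p ≤ G.N p
  g : ∀ x y, ((x, y) ∈ G.E ∨ (y, x) ∈ G.E) →
    (G.N y : ℤ) * G.ν x - G.N x * G.ν y + (G.ν x - 1) * G.c x < G.N x + G.N y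
  i : ∀ x y, ((x, y) ∈ G.E ∨ (y, x) ∈ G.E) → (G.ν y : ℤ) * G.N x - G.N y * G.ν x < G.N x
  h : ∀ p < G.size, ∃ κ : ℕ, κ * G.N p = ∑ e ∈ Graph.edges G p, G.N (Graph.oth p e) + G.c p ∧
    κ * G.ν p + (Graph.edges G p).card = ∑ e ∈ Graph.edges G p, G.ν (Graph.oth p e) + 2

theorem oth_lt {G : Graph} (hE : ∀ e ∈ G.E, e.1 < e.2 ∧ e.2 < G.size) {p : ℕ} {e : ℕ × ℕ}
    (he : e ∈ Graph.edges G p) : Graph.oth p e < G.size := by
  obtain ⟨h1, h2⟩ := Finset.mem_filter.1 he
  have h3 := hE e h1
  unfold Graph.oth
  split_ifs <;> omega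

theorem inv_start {m : ℕ} (hm : 0 < m) : Inv (Graph.start m) := by
  refine ⟨?_, ⟨0, by simp [Graph.start], hm⟩, by simp [Graph.start], ?_, by simp [Graph.start],
    by simp [Graph.start], ?_⟩
  · intro p _
    exact ⟨hm, by simp [Graph.start]⟩
  · intro p _
    simp [Graph.start]
  · intro p _
    refine ⟨1, ?_, ?_⟩ <;> simp [Graph.start, Graph.edges]

theorem inv_free {G : Graph} (hG : Inv G) {j m : ℕ} (hj : j < G.size) (hm : 0 < m)
    (hmc : m ≤ G.c j) : Inv (G.free j m) := by
  obtain ⟨pos, cpos, edge, f, g, i, h⟩ := hG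
  set s := G.size with hs
  have hN' : ∀ p, p < s → (G.free j m).N p = G.N p := by
    intro p hp
    simp only [Graph.free]
    rw [Function.update_of_ne (by omega)]
  have hν' : ∀ p, p < s → (G.free j m).ν p = G.ν p := by
    intro p hp
    simp only [Graph.free]
    rw [Function.update_of_ne (by omega)]
  have hc' : ∀ p, p < s → p ≠ j → (G.free j m).c p = G.c p := by
    intro p hp hpj
    simp only [Graph.free]
    rw [Function.update_of_ne (by omega), Function.update_of_ne hpj]
  have hcj : (G.free j m).c j = G.c j - m := by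
    simp only [Graph.free]
    rw [Function.update_of_ne (by omega), Function.update_self]
  have hNs : (G.free j m).N s = G.N j + m := by simp [Graph.free, hs]
  have hνs : (G.free j m).ν s = G.ν j + 1 := by simp [Graph.free, hs]
  have hcs : (G.free j m).c s = m := by simp [Graph.free, hs]
  have hE' : (G.free j m).E = insert (j, s) G.E := rfl
  have hsize : (G.free j m).size = s + 1 := rfl
  have hns : (j, s) ∉ G.E := fun hh => by
    have := (edge _ hh).2
    omega
  have hfj := f j hj
  have hm' : (m : ℤ) ≤ G.c j := by exact_mod_cast hmc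
  have hm0 : (0 : ℤ) < m := by exact_mod_cast hm
  have hNj : (0 : ℤ) < G.N j := by exact_mod_cast (pos j hj).1
  have hνj : (1 : ℤ) ≤ G.ν j := by exact_mod_cast (pos j hj).2
  have hmf : ((G.ν j : ℤ) - 1) * m ≤ G.N j := by nlinarith
  have hcjZ : ((G.c j - m : ℕ) : ℤ) = (G.c j : ℤ) - m := by
    push_cast [hmc]
    ring
  refine ⟨?_, ⟨s, by rw [hsize]; omega, by rw [hcs]; exact hm⟩, ?_, ?_, ?_, ?_, ?_⟩
  · intro p hp
    rw [hsize] at hp
    rcases Nat.lt_or_ge p s with h1 | h1
    · rw [hN' p h1, hν' p h1]
      exact pos p h1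
    · have : p = s := by omega
      subst this
      rw [hNs, hνs]
      exact ⟨by omega, by omega⟩
  · intro e he
    rw [hE', Finset.mem_insert] at he
    rw [hsize]
    rcases he with rfl | he
    · simp only
      omega
    · have := edge e he
      omega
  · intro p hp
    rw [hsize] at hp
    rcases Nat.lt_or_ge p s with h1 | h1
    · rw [hN' p h1, hν' p h1]
      by_cases hpj : p = j
      · subst hpj
        rw [hcj, hcjZ]
        nlinarith
      · rw [hc' p h1 hpj]
        exact f p h1
    · have : p = s := by omega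
      subst this
      rw [hNs, hνs, hcs]
      push_cast
      linarith
  · -- g
    have key : ∀ x y, ((x, y) ∈ G.E ∨ (y, x) ∈ G.E) →
        ((G.free j m).N y : ℤ) * (G.free j m).ν x - (G.free j m).N x * (G.free j m).ν y +
          ((G.free j m).ν x - 1) * (G.free j m).c x < (G.free j m).N x + (G.free j m).N y := by
      intro x y hxy
      have hx : x < s ∧ y < s := by
        rcases hxy with h1 | h1
        · have := edge _ h1; simp only at this; omega
        · have := edge _ h1; simp only at this; omega
      rw [hN' x hx.1, hN' y hx.2, hν' x hx.1, hν' y hx.2]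
      have h2 := g x y hxy
      by_cases hxj : x = j
      · subst hxj
        rw [hcj, hcjZ]
        nlinarith
      · rw [hc' x hx.1 hxj]
        exact h2
    intro x y hxy
    rw [hE', Finset.mem_insert, Finset.mem_insert, Prod.mk.injEq, Prod.mk.injEq] at hxy
    rcases hxy with (⟨rfl, rfl⟩ | h1) | (⟨rfl, rfl⟩ | h1)
    · rw [hN' x hj, hν' x hj, hcj, hcjZ, hNs, hνs]
      push_cast
      nlinarith
    · exact key x y (Or.inl h1)
    · rw [hN' y hj, hν' y hj, hcs, hNs, hνs]
      push_cast
      nlinarith
    · exact key x y (Or.inr h1)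
  · -- i
    have key : ∀ x y, ((x, y) ∈ G.E ∨ (y, x) ∈ G.E) →
        ((G.free j m).ν y : ℤ) * (G.free j m).N x - (G.free j m).N y * (G.free j m).ν x <
          (G.free j m).N x := by
      intro x y hxy
      have hx : x < s ∧ y < s := by
        rcases hxy with h1 | h1
        · have := edge _ h1; simp only at this; omega
        · have := edge _ h1; simp only at this; omega
      rw [hN' x hx.1, hN' y hx.2, hν' x hx.1, hν' y hx.2]
      exact i x y hxy
    intro x y hxy
    rw [hE', Finset.mem_insert, Finset.mem_insert, Prod.mk.injEq, Prod.mk.injEq] at hxy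
    rcases hxy with (⟨rfl, rfl⟩ | h1) | (⟨rfl, rfl⟩ | h1)
    · rw [hN' x hj, hν' x hj, hNs, hνs]
      push_cast
      nlinarith
    · exact key x y (Or.inl h1)
    · rw [hN' y hj, hν' y hj, hNs, hνs]
      push_cast
      nlinarith
    · exact key x y (Or.inr h1)
  · -- h
    have hsum : ∀ (F F' : ℕ → ℕ), (∀ q, q < s → F' q = F q) → ∀ p, ∑ e ∈ Graph.edges G p,
        F' (Graph.oth p e) = ∑ e ∈ Graph.edges G p, F (Graph.oth p e) := by
      intro F F' hF p
      exact Finset.sum_congr rfl fun e he => hF _ (oth_lt edge he)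
    intro p hp
    rw [hsize] at hp
    rcases Nat.lt_or_ge p s with h1 | h1
    · by_cases hpj : p = j
      · subst hpj
        have he1 : Graph.edges (G.free p m) p = insert (p, s) (Graph.edges G p) := by
          unfold Graph.edges
          rw [hE', Finset.filter_insert, if_pos (Or.inl rfl)]
        have hn1 : (p, s) ∉ Graph.edges G p := fun hh => hns (Finset.mem_filter.1 hh).1
        have ho : Graph.oth p (p, s) = s := by simp [Graph.oth]
        obtain ⟨κ, h2, h3⟩ := h p h1
        refine ⟨κ + 1, ?_, ?_⟩
        · rw [he1, Finset.sum_insert hn1, ho, hNs, hsum _ _ hN', hN' p h1, hcj, add_mul, h2]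
          omega
        · rw [he1, Finset.sum_insert hn1, ho, hνs, hsum _ _ hν', hν' p h1,
            Finset.card_insert_of_notMem hn1]
          linarith
      · have he1 : Graph.edges (G.free j m) p = Graph.edges G p := by
          unfold Graph.edges
          rw [hE', Finset.filter_insert, if_neg]
          simp only
          omega
        obtain ⟨κ, h2, h3⟩ := h p h1
        refine ⟨κ, ?_, ?_⟩
        · rw [he1, hsum _ _ hN', hN' p h1, hc' p h1 hpj, h2]
        · rw [he1, hsum _ _ hν', hν' p h1, h3]
    · have : p = s := by omega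
      subst this
      have he1 : Graph.edges (G.free j m) s = {(j, s)} := by
        unfold Graph.edges
        rw [hE', Finset.filter_insert, if_pos (Or.inr rfl)]
        rw [Finset.filter_false_of_mem, insert_empty_eq]
        intro e he
        have := edge e he
        omega
      have ho : Graph.oth s (j, s) = j := by
        unfold Graph.oth
        rw [if_neg]
        simp only
        omega
      refine ⟨1, ?_, ?_⟩
      · rw [he1, Finset.sum_singleton, ho, hNs, hN' j hj, hcs, one_mul]
      · rw [he1, Finset.sum_singleton, ho, hνs, hν' j hj, Finset.card_singleton]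
        ring

theorem inv_cross {G : Graph} (hG : Inv G) {a b m : ℕ} (hab : (a, b) ∈ G.E) (hm : 0 < m)
    (hma : m ≤ G.c a) (hmb : m ≤ G.c b) : Inv (G.cross a b m) := by
  obtain ⟨pos, cpos, edge, f, g, i, h⟩ := hG
  set s := G.size with hs
  have hab' := edge _ hab
  simp only at hab'
  have ha : a < s := by omega
  have hb : b < s := by omega
  have hne : a ≠ b := by omega
  have hN' : ∀ p, p < s → (G.cross a b m).N p = G.N p := by
    intro p hp
    simp only [Graph.cross]
    rw [Function.update_of_ne (by omega)]
  have hν' : ∀ p, p < s → (G.cross a b m).ν p = G.ν p := by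
    intro p hp
    simp only [Graph.cross]
    rw [Function.update_of_ne (by omega)]
  have hc' : ∀ p, p < s → p ≠ a → p ≠ b → (G.cross a b m).c p = G.c p := by
    intro p hp hpa hpb
    simp only [Graph.cross]
    rw [Function.update_of_ne (by omega), Function.update_of_ne hpb, Function.update_of_ne hpa]
  have hca : (G.cross a b m).c a = G.c a - m := by
    simp only [Graph.cross]
    rw [Function.update_of_ne (by omega), Function.update_of_ne hne, Function.update_self]
  have hcb : (G.cross a b m).c b = G.c b - m := by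
    simp only [Graph.cross]
    rw [Function.update_of_ne (by omega), Function.update_self]
  have hNs : (G.cross a b m).N s = G.N a + G.N b + m := by simp [Graph.cross, hs]
  have hνs : (G.cross a b m).ν s = G.ν a + G.ν b := by simp [Graph.cross, hs]
  have hcs : (G.cross a b m).c s = m := by simp [Graph.cross, hs]
  have hE' : (G.cross a b m).E = insert (a, s) (insert (b, s) (G.E.erase (a, b))) := rfl
  have hsize : (G.cross a b m).size = s + 1 := rfl
  have hnas : (a, s) ∉ G.E := fun hh => by
    have := (edge _ hh).2
    omega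
  have hnbs : (b, s) ∉ G.E := fun hh => by
    have := (edge _ hh).2
    omega
  have hmaZ : (m : ℤ) ≤ G.c a := by exact_mod_cast hma
  have hmbZ : (m : ℤ) ≤ G.c b := by exact_mod_cast hmb
  have hm0 : (0 : ℤ) < m := by exact_mod_cast hm
  have hNa : (0 : ℤ) < G.N a := by exact_mod_cast (pos a ha).1
  have hNb : (0 : ℤ) < G.N b := by exact_mod_cast (pos b hb).1
  have hνa : (1 : ℤ) ≤ G.ν a := by exact_mod_cast (pos a ha).2
  have hνb : (1 : ℤ) ≤ G.ν b := by exact_mod_cast (pos b hb).2
  have hfa := f a ha
  have hfb := f b hb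
  have hmfa : ((G.ν a : ℤ) - 1) * m ≤ (G.ν a - 1) * G.c a := by nlinarith
  have hmfb : ((G.ν b : ℤ) - 1) * m ≤ (G.ν b - 1) * G.c b := by nlinarith
  have hcaZ : ((G.c a - m : ℕ) : ℤ) = (G.c a : ℤ) - m := by
    push_cast [hma]
    ring
  have hcbZ : ((G.c b - m : ℕ) : ℤ) = (G.c b : ℤ) - m := by
    push_cast [hmb]
    ring
  have gab := g a b (Or.inl hab)
  have gba := g b a (Or.inr hab)
  have iab := i a b (Or.inl hab)
  have iba := i b a (Or.inr hab)
  have hmem : ∀ x y, (x, y) ∈ (G.cross a b m).E → (x = a ∧ y = s) ∨ (x = b ∧ y = s) ∨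
      (x, y) ∈ G.E := by
    intro x y hxy
    rw [hE', Finset.mem_insert, Finset.mem_insert, Prod.mk.injEq, Prod.mk.injEq] at hxy
    rcases hxy with h1 | h1 | h1
    · exact Or.inl h1
    · exact Or.inr (Or.inl h1)
    · exact Or.inr (Or.inr (Finset.mem_of_mem_erase h1))
  refine ⟨?_, ⟨s, by rw [hsize]; omega, by rw [hcs]; exact hm⟩, ?_, ?_, ?_, ?_, ?_⟩
  · intro p hp
    rw [hsize] at hp
    rcases Nat.lt_or_ge p s with h1 | h1
    · rw [hN' p h1, hν' p h1]
      exact pos p h1
    · have : p = s := by omega
      subst this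
      rw [hNs, hνs]
      have := (pos a ha).2
      exact ⟨by omega, by omega⟩
  · rintro ⟨x, y⟩ he
    rw [hsize]
    rcases hmem x y he with ⟨rfl, rfl⟩ | ⟨rfl, rfl⟩ | h1
    · simp only; omega
    · simp only; omega
    · have := edge _ h1
      simp only at this ⊢
      omega
  · intro p hp
    rw [hsize] at hp
    rcases Nat.lt_or_ge p s with h1 | h1
    · rw [hN' p h1, hν' p h1]
      by_cases hpa : p = a
      · subst hpa
        rw [hca, hcaZ]
        nlinarith
      · by_cases hpb : p = b
        · subst hpb
          rw [hcb, hcbZ]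
          nlinarith
        · rw [hc' p h1 hpa hpb]
          exact f p h1
    · have : p = s := by omega
      subst this
      rw [hNs, hνs, hcs]
      push_cast
      nlinarith
  · -- g
    have key : ∀ x y, ((x, y) ∈ G.E ∨ (y, x) ∈ G.E) →
        ((G.cross a b m).N y : ℤ) * (G.cross a b m).ν x -
          (G.cross a b m).N x * (G.cross a b m).ν y +
          ((G.cross a b m).ν x - 1) * (G.cross a b m).c x <
            (G.cross a b m).N x + (G.cross a b m).N y := by
      intro x y hxy
      have hx : x < s ∧ y < s := by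
        rcases hxy with h1 | h1
        · have := edge _ h1; simp only at this; omega
        · have := edge _ h1; simp only at this; omega
      rw [hN' x hx.1, hN' y hx.2, hν' x hx.1, hν' y hx.2]
      have h2 := g x y hxy
      by_cases hxa : x = a
      · subst hxa
        rw [hca, hcaZ]
        nlinarith
      · by_cases hxb : x = b
        · subst hxb
          rw [hcb, hcbZ]
          nlinarith
        · rw [hc' x hx.1 hxa hxb]
          exact h2
    intro x y hxy
    rcases hxy with hxy | hxy
    · rcases hmem x y hxy with ⟨rfl, rfl⟩ | ⟨rfl, rfl⟩ | h1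
      · rw [hN' x ha, hν' x ha, hca, hcaZ, hNs, hνs]
        push_cast
        nlinarith
      · rw [hN' x hb, hν' x hb, hcb, hcbZ, hNs, hνs]
        push_cast
        nlinarith
      · exact key x y (Or.inl h1)
    · rcases hmem y x hxy with ⟨rfl, rfl⟩ | ⟨rfl, rfl⟩ | h1
      · rw [hN' y ha, hν' y ha, hcs, hNs, hνs]
        push_cast
        nlinarith
      · rw [hN' y hb, hν' y hb, hcs, hNs, hνs]
        push_cast
        nlinarith
      · exact key x y (Or.inr h1)
  · -- i
    have key : ∀ x y, ((x, y) ∈ G.E ∨ (y, x) ∈ G.E) →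
        ((G.cross a b m).ν y : ℤ) * (G.cross a b m).N x -
          (G.cross a b m).N y * (G.cross a b m).ν x < (G.cross a b m).N x := by
      intro x y hxy
      have hx : x < s ∧ y < s := by
        rcases hxy with h1 | h1
        · have := edge _ h1; simp only at this; omega
        · have := edge _ h1; simp only at this; omega
      rw [hN' x hx.1, hN' y hx.2, hν' x hx.1, hν' y hx.2]
      exact i x y hxy
    intro x y hxy
    rcases hxy with hxy | hxy
    · rcases hmem x y hxy with ⟨rfl, rfl⟩ | ⟨rfl, rfl⟩ | h1
      · rw [hN' x ha, hν' x ha, hNs, hνs]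
        push_cast
        nlinarith
      · rw [hN' x hb, hν' x hb, hNs, hνs]
        push_cast
        nlinarith
      · exact key x y (Or.inl h1)
    · rcases hmem y x hxy with ⟨rfl, rfl⟩ | ⟨rfl, rfl⟩ | h1
      · rw [hN' y ha, hν' y ha, hNs, hνs]
        push_cast
        nlinarith
      · rw [hN' y hb, hν' y hb, hNs, hνs]
        push_cast
        nlinarith
      · exact key x y (Or.inr h1)
  · -- h
    have hsum : ∀ (F F' : ℕ → ℕ), (∀ q, q < s → F' q = F q) → ∀ p (S : Finset (ℕ × ℕ)),
        S ⊆ Graph.edges G p → ∑ e ∈ S,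
        F' (Graph.oth p e) = ∑ e ∈ S, F (Graph.oth p e) := by
      intro F F' hF p S hS
      exact Finset.sum_congr rfl fun e he => hF _ (oth_lt edge (hS he))
    have hmemab : ∀ p, (p = a ∨ p = b) → (a, b) ∈ Graph.edges G p := by
      intro p hp
      refine Finset.mem_filter.2 ⟨hab, ?_⟩
      simp only
      rcases hp with rfl | rfl
      · exact Or.inl rfl
      · exact Or.inr rfl
    -- edges at an end `p` of the blown up edge, `q` the other one
    have main : ∀ p q, ((p = a ∧ q = b) ∨ (p = b ∧ q = a)) →
        ((G.cross a b m).c p = G.c p - m) → m ≤ G.c p → ∃ κ : ℕ,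
        κ * (G.cross a b m).N p = ∑ e ∈ Graph.edges (G.cross a b m) p,
          (G.cross a b m).N (Graph.oth p e) + (G.cross a b m).c p ∧
        κ * (G.cross a b m).ν p + (Graph.edges (G.cross a b m) p).card =
          ∑ e ∈ Graph.edges (G.cross a b m) p, (G.cross a b m).ν (Graph.oth p e) + 2 := by
      intro p q hpq hcp hmc
      have hp : p < s := by rcases hpq with ⟨rfl, _⟩ | ⟨rfl, _⟩ <;> assumption
      have hq : q < s := by rcases hpq with ⟨_, rfl⟩ | ⟨_, rfl⟩ <;> assumption
      have he1 : Graph.edges (G.cross a b m) p =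
          insert (p, s) ((Graph.edges G p).erase (a, b)) := by
        ext ⟨x, y⟩
        unfold Graph.edges
        rw [hE']
        simp only [Finset.mem_filter, Finset.mem_insert, Finset.mem_erase, ne_eq, Prod.mk.injEq]
        constructor
        · rintro ⟨(⟨rfl, rfl⟩ | ⟨rfl, rfl⟩ | ⟨h1, h2⟩), h3⟩
          · left
            refine ⟨?_, rfl⟩
            rcases h3 with h3 | h3
            · exact h3
            · omega
          · left
            refine ⟨?_, rfl⟩
            rcases h3 with h3 | h3
            · exact h3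
            · omega
          · exact Or.inr ⟨h1, h2, h3⟩
        · rintro (⟨rfl, rfl⟩ | ⟨h1, h2, h3⟩)
          · refine ⟨?_, Or.inl rfl⟩
            rcases hpq with ⟨rfl, _⟩ | ⟨rfl, _⟩
            · exact Or.inl ⟨rfl, rfl⟩
            · exact Or.inr (Or.inl ⟨rfl, rfl⟩)
          · exact ⟨Or.inr (Or.inr ⟨h1, h2⟩), h3⟩
      have hn1 : (p, s) ∉ (Graph.edges G p).erase (a, b) := fun hh => by
        have := (edge _ (Finset.mem_filter.1 (Finset.mem_of_mem_erase hh)).1).2
        simp only at this
        omega
      have ho : Graph.oth p (p, s) = s := by simp [Graph.oth]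
      have hoab : Graph.oth p (a, b) = q := by
        unfold Graph.oth
        rcases hpq with ⟨rfl, rfl⟩ | ⟨rfl, rfl⟩
        · rw [if_pos rfl]
        · rw [if_neg (by simpa using hne)]
      have hin : (a, b) ∈ Graph.edges G p := hmemab p (by
        rcases hpq with ⟨rfl, _⟩ | ⟨rfl, _⟩
        · exact Or.inl rfl
        · exact Or.inr rfl)
      have hsN : ∀ F : ℕ → ℕ, ∑ e ∈ (Graph.edges G p).erase (a, b), F (Graph.oth p e) + F q =
          ∑ e ∈ Graph.edges G p, F (Graph.oth p e) := by
        intro F
        have := Finset.add_sum_erase (Graph.edges G p) (fun e => F (Graph.oth p e)) hin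
        simp only [hoab] at this
        rw [← this]
        ring
      have hcard : ((Graph.edges G p).erase (a, b)).card + 1 = (Graph.edges G p).card :=
        Finset.card_erase_add_one hin
      have hNs' : (G.cross a b m).N s = G.N p + G.N q + m := by
        rw [hNs]
        rcases hpq with ⟨rfl, rfl⟩ | ⟨rfl, rfl⟩ <;> ring
      have hνs' : (G.cross a b m).ν s = G.ν p + G.ν q := by
        rw [hνs]
        rcases hpq with ⟨rfl, rfl⟩ | ⟨rfl, rfl⟩ <;> ring
      obtain ⟨κ, h2, h3⟩ := h p hp
      have e1 := hsN G.N
      have e2 := hsN G.ν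
      refine ⟨κ + 1, ?_, ?_⟩
      · rw [he1, Finset.sum_insert hn1, ho, hNs', hsum _ _ hN' p _ (Finset.erase_subset _ _),
          hN' p hp, hcp, add_mul, h2, ← e1]
        omega
      · rw [he1, Finset.sum_insert hn1, ho, hνs', hsum _ _ hν' p _ (Finset.erase_subset _ _),
          hν' p hp, Finset.card_insert_of_notMem hn1, hcard, add_mul]
        linarith
    intro p hp
    rw [hsize] at hp
    rcases Nat.lt_or_ge p s with h1 | h1
    · by_cases hpa : p = a
      · subst hpa
        exact main p b (Or.inl ⟨rfl, rfl⟩) hca hma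
      · by_cases hpb : p = b
        · subst hpb
          exact main p a (Or.inr ⟨rfl, rfl⟩) hcb hmb
        · have he1 : Graph.edges (G.cross a b m) p = Graph.edges G p := by
            ext ⟨x, y⟩
            unfold Graph.edges
            rw [hE']
            simp only [Finset.mem_filter, Finset.mem_insert, Finset.mem_erase, ne_eq,
              Prod.mk.injEq]
            constructor
            · rintro ⟨(⟨rfl, rfl⟩ | ⟨rfl, rfl⟩ | ⟨h1, h2⟩), h3⟩
              · omega
              · omega
              · exact ⟨h2, h3⟩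
            · rintro ⟨h2, h3⟩
              refine ⟨Or.inr (Or.inr ⟨?_, h2⟩), h3⟩
              rintro ⟨rfl, rfl⟩
              rcases h3 with h3 | h3
              · exact hpa h3.symm
              · exact hpb h3.symm
          obtain ⟨κ, h2, h3⟩ := h p h1
          refine ⟨κ, ?_, ?_⟩
          · rw [he1, hsum _ _ hN' p _ (Finset.Subset.refl _), hN' p h1, hc' p h1 hpa hpb, h2]
          · rw [he1, hsum _ _ hν' p _ (Finset.Subset.refl _), hν' p h1, h3]
    · have : p = s := by omega
      subst this
      have he1 : Graph.edges (G.cross a b m) s = {(a, s), (b, s)} := by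
        ext ⟨x, y⟩
        unfold Graph.edges
        rw [hE']
        simp only [Finset.mem_filter, Finset.mem_insert, Finset.mem_erase, ne_eq,
          Prod.mk.injEq, Finset.mem_singleton]
        constructor
        · rintro ⟨(h1 | h1 | ⟨h1, h2⟩), h3⟩
          · exact Or.inl h1
          · exact Or.inr h1
          · have := edge _ h2
            simp only at this
            omega
        · rintro (⟨rfl, rfl⟩ | ⟨rfl, rfl⟩)
          · exact ⟨Or.inl ⟨rfl, rfl⟩, Or.inr rfl⟩
          · exact ⟨Or.inr (Or.inl ⟨rfl, rfl⟩), Or.inr rfl⟩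
      have hn1 : (a, s) ∉ ({(b, s)} : Finset (ℕ × ℕ)) := by
        simp only [Finset.mem_singleton, Prod.mk.injEq]
        omega
      have hoa : Graph.oth s (a, s) = a := by
        unfold Graph.oth
        rw [if_neg]
        simp only
        omega
      have hob : Graph.oth s (b, s) = b := by
        unfold Graph.oth
        rw [if_neg]
        simp only
        omega
      refine ⟨1, ?_, ?_⟩
      · rw [he1, Finset.sum_insert hn1, Finset.sum_singleton, hoa, hob, hNs, hN' a ha, hN' b hb,
          hcs, one_mul]
      · rw [he1, Finset.sum_insert hn1, Finset.sum_singleton, hoa, hob, hνs, hν' a ha, hν' b hb,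
          Finset.card_insert_of_notMem hn1, Finset.card_singleton]
        ring

theorem inv_of_blow {G : Graph} (h : Blow G) : Inv G := by
  induction h with
  | start m hm => exact inv_start hm
  | free G j m _ hj hm hmc ih => exact inv_free ih hj hm hmc
  | cross G i j m _ hij hm hi hj ih => exact inv_cross ih hij hm hi hj

end PC2

open PC2 in
theorem blowNum : BlowNum := by
  intro G hG
  obtain ⟨pos, cpos, edge, f, g, i, h⟩ := inv_of_blow hG
  refine ⟨pos, cpos, ?_, h⟩
  intro e he
  have h1 := i e.1 e.2 (Or.inl he)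
  have h2 := i e.2 e.1 (Or.inr he)
  constructor
  · have h3 : (G.ν e.2 : ℤ) * G.N e.1 < G.N e.1 + G.N e.2 * G.ν e.1 := by linarith
    exact_mod_cast h3
  · have h3 : (G.ν e.1 : ℤ) * G.N e.2 < G.N e.2 + G.N e.1 * G.ν e.2 := by linarith
    exact_mod_cast h3

end Comp

end Mono
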