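import Pool.Agent.Helper53.Comp.GoalsC

/-! Assembly of the strong monodromy property for plane curves. -/

namespace Mono

namespace Comp

open Finset

theorem oth_lt {G : Graph} (hE : ∀ e ∈ G.E, e.1 < e.2 ∧ e.2 < G.size) {p : ℕ} {e : ℕ × ℕ}
    (he : e ∈ Graph.edges G p) : Graph.oth p e < G.size := by
  obtain ⟨h1, h2⟩ := Finset.mem_filter.1 he
  have h3 := hE e h1
  unfold Graph.oth
  split_ifs <;> omega

theorem goodG_curve (hT : BlowTree) (hN : BlowNum) (C : CurveGerm) : GoodG C.strata := by
  obtain ⟨_, hE, _⟩ := hT C.G C.blow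
  obtain ⟨hpos, _⟩ := hN C.G C.blow
  intro t ht
  unfold CurveGerm.strata at ht
  rw [List.mem_append, List.mem_append, List.mem_map, List.mem_map, List.mem_flatMap] at ht
  rcases ht with (⟨p, hp, rfl⟩ | ⟨e, he, rfl⟩) | ⟨p, hp, h⟩
  · rw [List.mem_range] at hp
    refine ⟨by simp, ?_⟩
    intro q hq
    simp only [List.mem_singleton] at hq
    subst hq
    exact hpos p hp
  · rw [Finset.mem_toList] at he
    have h3 := hE e he
    refine ⟨by simp, ?_⟩
    intro q hq
    simp only [List.mem_cons, List.not_mem_nil, or_false] at hq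
    rcases hq with rfl | rfl
    · exact hpos e.1 (by omega)
    · exact hpos e.2 h3.2
  · rw [List.mem_range] at hp
    obtain ⟨b, hb, rfl⟩ := List.mem_map.1 h
    refine ⟨by simp, ?_⟩
    intro q hq
    simp only [List.mem_cons, List.not_mem_nil, or_false] at hq
    rcases hq with rfl | rfl
    · exact hpos p hp
    · exact ⟨C.pos p hp b hb, one_pos⟩

/-- Packet C8. -/
theorem curveSMC (hT : BlowTree) (hN : BlowNum) (hI : TreeIneq) (hV : VertexRel)
    (hS : SameRatio) (hP : CurvePole) (hO : CurveOne) (hR : Rupture) : CurveSMC := by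
  intro C
  refine ⟨goodG_curve hT hN C, ?_⟩
  intro e he z hz
  obtain ⟨hbr, hm1, hne1, heq1⟩ := hO hT hN hV hS C
  rcases hP hT hN hV C e he z hz with ⟨p, hp, h3, _, hpz⟩ | ⟨p, hp, b, hb, heb, hbz⟩
  · exact Or.inl (hR hT hN hI hV hS hO C p z hp h3 hpz)
  · have hb0 : 0 < b := C.pos p hp b hb
    have hpow : Complex.exp (2 * Real.pi * Complex.I * z) ^ b = 1 := by
      rw [← Complex.exp_nat_mul, Complex.exp_eq_one_iff]
      refine ⟨-1, ?_⟩
      push_cast
      have : (b : ℂ) * z = -1 := by linear_combination hbz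
      linear_combination (2 * Real.pi * Complex.I) * this
    by_cases h1 : Complex.exp (2 * Real.pi * Complex.I * z) = 1
    · -- `b = 1`
      have hb1 : b = 1 := by
        rw [Complex.exp_eq_one_iff] at h1
        obtain ⟨n, hn⟩ := h1
        have h2 : z = n := by
          have h3 : (2 * Real.pi * Complex.I : ℂ) ≠ 0 := Complex.two_pi_I_ne_zero
          have h4 : (2 * Real.pi * Complex.I : ℂ) * z = (2 * Real.pi * Complex.I) * n := by
            rw [hn]; ring
          exact mul_left_cancel₀ h3 h4
        rw [h2] at hbz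
        have h5 : (b : ℤ) * n + 1 = 0 := by exact_mod_cast hbz
        have h6 : (b : ℤ) ∣ 1 := ⟨-n, by linarith⟩
        have h7 : b ∣ 1 := by exact_mod_cast h6
        exact Nat.dvd_one.1 h7
      subst hb1
      by_cases hb2 : C.br = 1
      · right
        refine ⟨Nat.dvd_one.1 heb, ?_, ?_⟩
        · push_cast at hbz
          linear_combination hbz
        · rw [Nat.dvd_one.1 heb]
          exact heq1 hb2
      · left
        rw [h1]
        exact hne1 hb2
    · left
      right
      exact ⟨h1, p, hp, b, hb, hpow⟩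

end Comp

end Mono
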