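import Pool.Agent.Helper53.Comp.GoalsK

/-!
# Packets P: the Denef–Loeser expression of a chart

A chart is given by `n` coordinates, their blocks `blk : Fin n → Fin k` (every block is nonempty)
and their multiplicities `N`; the weights are `w j = N j * ρ j`.
-/

namespace Mono

namespace Comp

open Finset Filter Topology

variable {n k : ℕ}

/-! ### Definitions -/

open Classical in
/-- The Denef–Loeser expression with real weights, evaluated at a real number. -/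
noncomputable def ZrealR (w : Fin n → ℝ) (A : Finset (Fin n → ℤ)) (T : Fan n) (s : ℝ) : ℝ :=
  ∑ φ ∈ cfaces A, cDL (dimF φ) s * (nvol φ : ℝ) *
    ∑ δ ∈ T.faces.filter (fun δ => δ.card + dimF φ = n ∧ ∀ a ∈ δ, ∀ v ∈ φ, a ⬝ᵥ v = NA A a),
      (idx (δ : Set (Fin n → ℤ)) : ℝ) / ∏ a ∈ δ, ((NA A a : ℝ) * s + w ⬝ᵥ toR a)

/-- The choices of one coordinate in every block. -/
def sel (blk : Fin n → Fin k) : Finset (Fin k → Fin n) := univ.filter (fun c => ∀ i, blk (c i) = i)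

/-- The coordinates `j` such that `e_j` is a generator of height zero of the lifted fan. -/
def zeroJ (blk : Fin n → Fin k) (Z : Finset (Fin k → ℤ)) : Finset (Fin n) :=
  univ.filter (fun j => Pi.single (blk j) 1 ∈ Z ∨ ∃ j', j' ≠ j ∧ blk j' = blk j)

/-- The generators of height zero of the lifted fan. -/
def liftZ (blk : Fin n → Fin k) (Z : Finset (Fin k → ℤ)) : Finset (Fin n → ℤ) :=
  (zeroJ blk Z).image (fun j => Pi.single j 1)

/-- The coordinates `j` such that `e_j` belongs to the cone over `F` given by the choice `c`. -/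
def coneJ (blk : Fin n → Fin k) (Z F : Finset (Fin k → ℤ)) (c : Fin k → Fin n) :
    Finset (Fin n) :=
  univ.filter (fun j => Pi.single (blk j) 1 ∈ F ∩ Z ∨ j ≠ c (blk j))

/-- The maximal cone of the lifted fan over `F` given by the choice `c`. -/
def liftCone (blk : Fin n → Fin k) (N : Fin n → ℕ) (Z F : Finset (Fin k → ℤ))
    (c : Fin k → Fin n) : Finset (Fin n → ℤ) :=
  (F \ Z).image (lift blk N) ∪ (coneJ blk Z F c).image (fun j => Pi.single j 1)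

/-- The gcd of the multiplicities in a block. -/
def blkGcd (blk : Fin n → Fin k) (N : Fin n → ℕ) (i : Fin k) : ℕ :=
  (univ.filter (fun j => blk j = i)).gcd N

/-- `vol (D τ) ^ 2`. -/
noncomputable def vG (D : Fin k → ℕ) (τ : Finset (Fin k → ℤ)) : ℝ :=
  (vol (τ.image (fun u i => (D i : ℤ) * u i)) : ℝ) ^ 2

/-- `ρ` is generic. -/
def GenR (Φ : Fan k) (blk : Fin n → Fin k) (ρ : Fin n → ℝ) : Prop :=
  (∀ c ∈ sel blk, Φ.Generic (fun i => ρ (c i))) ∧ ∀ j j', j ≠ j' → blk j = blk j' → ρ j ≠ ρ j'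

/-- The multilinear divided difference of `h` at the nodes `ρ`. -/
noncomputable def DDc (blk : Fin n → Fin k) (ρ : Fin n → ℝ) (h : (Fin k → ℝ) → ℝ) : ℝ :=
  ∑ c ∈ sel blk, (∏ j ∈ univ.filter (fun j => j ≠ c (blk j)), 1 / (ρ j - ρ (c (blk j)))) *
    h (fun i => ρ (c i))

/-! ### Packets -/

/-- P1. -/
def FaceSumR : Prop := ∀ (n : ℕ) (w : Fin n → ℝ) (A Z : Finset (Fin n → ℤ)) (Φ T : Fan n),
  Tri A Z Φ → ∀ s : ℝ, ZrealR w A T s = ∑ τ ∈ Φ.faces.filter (fun τ => τ.Nonempty ∧ τ ⊆ A),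
    cDL (τ.card - 1) s * (vol τ : ℝ) * Jsum A Z T τ s w

/-- P2. -/
def ZEvalR : Prop := ∀ (n : ℕ) (ν : Fin n → ℕ) (A : Finset (Fin n → ℤ)) (T : Fan n),
  (∀ i, 0 < ν i) → (∀ v ∈ A, ∀ i, 0 ≤ v i) → ∀ s : ℝ, 0 < s →
  (ZDLw ν A T).denom.eval (s : ℂ) ≠ 0 ∧
    RatFunc.eval (RingHom.id ℂ) (s : ℂ) (ZDLw ν A T) = ((ZrealR (nuR ν) A T s : ℝ) : ℂ)

/-- P3. -/
def ZrealCont : Prop := ∀ (n : ℕ) (w θ : Fin n → ℝ) (A : Finset (Fin n → ℤ)) (T : Fan n),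
  (∀ i, 0 < w i) → A.Nonempty → (∀ v ∈ A, ∀ i, 0 ≤ v i) → ∀ s : ℝ, 0 < s →
  Tendsto (fun ε : ℝ => ZrealR (w + ε • θ) A T s) (𝓝[>] 0) (𝓝 (ZrealR w A T s))

open Classical in
/-- P4: the lifted fan. -/
def LiftFan : Prop := ∀ (n k : ℕ) (A Z : Finset (Fin k → ℤ)) (Φ : Fan k), Tri A Z Φ →
  ∀ (blk : Fin n → Fin k) (N : Fin n → ℕ), Function.Surjective blk → (∀ j, 0 < N j) →
  ∃ Ψ : Fan n, Tri (A.image (lift blk N)) (liftZ blk Z) Ψ ∧
    Ψ.mx = Φ.mx.biUnion (fun F => (sel blk).image (liftCone blk N Z F))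

open Classical in
/-- P5: coordinates and the linear form of a lifted cone. -/
def LiftCrd : Prop := ∀ (n k : ℕ) (A Z : Finset (Fin k → ℤ)) (Φ : Fan k), Tri A Z Φ →
  ∀ (blk : Fin n → Fin k) (N : Fin n → ℕ), Function.Surjective blk → (∀ j, 0 < N j) →
  ∀ F ∈ Φ.mx, ∀ c ∈ sel blk, ∀ ρ : Fin n → ℝ,
  Indep (liftCone blk N Z F c) ∧ (liftCone blk N Z F c).card = n ∧
  liftCone blk N Z F c \ liftZ blk Z = (F \ Z).image (lift blk N) ∧
  (∀ u ∈ F \ Z, crd (liftCone blk N Z F c) (fun j => (N j : ℝ) * ρ j) (lift blk N u) =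
    crd F (fun i => ρ (c i)) u) ∧
  (∀ j ∈ coneJ blk Z F c, crd (liftCone blk N Z F c) (fun j => (N j : ℝ) * ρ j) (Pi.single j 1) =
    (N j : ℝ) * (ρ j - ρ (c (blk j)) +
      (if Pi.single (blk j) 1 ∈ F ∩ Z then crd F (fun i => ρ (c i)) (Pi.single (blk j) 1) else 0))) ∧
  psi (liftZ blk Z) (liftCone blk N Z F c) (fun j => (N j : ℝ) * ρ j) =
    psi Z F (fun i => ρ (c i))

/-- P6: the index of a lifted cone. -/
def LiftIdx : Prop := ∀ (n k : ℕ) (A Z : Finset (Fin k → ℤ)) (Φ : Fan k), Tri A Z Φ →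
  ∀ (blk : Fin n → Fin k) (N : Fin n → ℕ), Function.Surjective blk → (∀ j, 0 < N j) →
  ∀ F ∈ Φ.mx, ∀ c ∈ sel blk,
  idx ((liftCone blk N Z F c : Finset (Fin n → ℤ)) : Set (Fin n → ℤ)) =
    idx (F : Set (Fin k → ℤ)) *
      ∏ i ∈ univ.filter (fun i : Fin k => (Pi.single i 1 : Fin k → ℤ) ∉ F ∩ Z), N (c i)

/-- P7: the volume of a lifted simplex. -/
def LiftVol : Prop := ∀ (n k : ℕ) (blk : Fin n → Fin k) (N : Fin n → ℕ),
  Function.Surjective blk → (∀ j, 0 < N j) → ∀ τ : Finset (Fin k → ℤ),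
  vol (τ.image (lift blk N)) = vol (τ.image (fun u i => (blkGcd blk N i : ℤ) * u i))

/-- P8: the sum over the cones above `F`: partial fractions.  (`K` is the set of blocks `i` with
`e_i ∈ F ∩ Z`, and `ξ x i = x i - crd F x e_i` for `i ∈ K`; pure algebra.) -/
def PartFrac : Prop := ∀ (n k : ℕ) (blk : Fin n → Fin k) (N : Fin n → ℕ) (ρ : Fin n → ℝ)
  (K : Finset (Fin k)) (R : (Fin k → ℝ) → ℝ) (ξ : (Fin k → ℝ) → Fin k → ℝ),
  Function.Surjective blk → (∀ j, 0 < N j) →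
  (∀ j j', j ≠ j' → blk j = blk j' → ρ j ≠ ρ j') →
  (∀ x y : Fin k → ℝ, (∀ i, i ∉ K → x i = y i) → R x = R y) →
  (∀ x y : Fin k → ℝ, (∀ i, i ∉ K → x i = y i) → ∀ i ∈ K, ξ x i = ξ y i) →
  (∀ c ∈ sel blk, ∀ j, blk j ∈ K → ρ j ≠ ξ (fun i => ρ (c i)) (blk j)) →
  ∀ c₀ ∈ sel blk,
  ∑ c ∈ (sel blk).filter (fun c => ∀ i ∈ K, c i = c₀ i),
    R (fun i => ρ (c i)) * (∏ i ∈ Kᶜ, (N (c i) : ℝ)⁻¹) *
      (∏ j ∈ univ.filter (fun j => blk j ∉ K ∧ j ≠ c (blk j)),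
        ((N j : ℝ) * (ρ j - ρ (c (blk j))))⁻¹) *
      ∏ j ∈ univ.filter (fun j => blk j ∈ K),
        ((N j : ℝ) * (ρ j - ξ (fun i => ρ (c i)) (blk j)))⁻¹ =
  (∏ j, (N j : ℝ)⁻¹) * ∑ c ∈ sel blk,
    (∏ j ∈ univ.filter (fun j => j ≠ c (blk j)), 1 / (ρ j - ρ (c (blk j)))) *
      (R (fun i => ρ (c i)) * ∏ i ∈ K, (ρ (c i) - ξ (fun i => ρ (c i)) i)⁻¹)

open Classical in
/-- P9: the formula of a chart at generic weights. -/
def ChartFormula : Prop := ∀ (n k : ℕ) (A Z : Finset (Fin k → ℤ)) (Φ : Fan k), 0 < k →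
  Tri A Z Φ → ∀ (blk : Fin n → Fin k) (N : Fin n → ℕ), Function.Surjective blk →
  (∀ j, 0 < N j) → ∀ T : Fan n, Adapted (A.image (lift blk N)) T → ∀ s : ℝ, 0 < s →
  ∀ ρ : Fin n → ℝ, (∀ j, 0 < ρ j) → GenR Φ blk ρ →
  (s + 1) * ZrealR (fun j => (N j : ℝ) * ρ j) (A.image (lift blk N)) T s =
    ∏ j, ((N j : ℝ) * ρ j)⁻¹ -
      s * ((∏ j, (N j : ℝ)⁻¹) * DDc blk ρ (WR Φ (vG (blkGcd blk N)) Z s))

/-- P10: generic directions. -/
def GenDir : Prop := ∀ (n k : ℕ) (Φ : Fan k) (blk : Fin n → Fin k) (ρ : Fin n → ℝ),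
  Function.Surjective blk →
  ∃ θ : Fin n → ℝ, (∀ c ∈ sel blk, Φ.Generic (fun i => θ (c i))) ∧
    ∀ᶠ ε : ℝ in 𝓝[>] 0, GenR Φ blk (ρ + ε • θ)

end Comp

end Mono
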