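import Pool.Agent.Helper53.Comp.GoalsC

/-! Assembly of the theorem for germs with the strong monodromy property. -/

namespace Mono

namespace Comp

open Finset Filter Topology

theorem ratio_prod (G Gt : Finset ℝ) (m mt : ℕ) (hG : G ⊆ Gt) (h1 : (1 : ℝ) ∈ Gt)
    (hm : m + 1 ≤ mt) : ∃ P : Polynomial ℝ, ∀ s : ℝ,
      ∏ b ∈ Gt, (s + b) ^ mt = (s + 1) * (∏ b ∈ G, (s + b) ^ m) * P.eval s := by
  classical
  refine ⟨(∏ b ∈ Gt \ G, (Polynomial.X + Polynomial.C b) ^ m) *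
    ((∏ b ∈ Gt.erase 1, (Polynomial.X + Polynomial.C b) ^ (mt - m)) *
      (Polynomial.X + Polynomial.C 1) ^ (mt - m - 1)), fun s => ?_⟩
  simp only [Polynomial.eval_mul, Polynomial.eval_prod, Polynomial.eval_pow,
    Polynomial.eval_add, Polynomial.eval_X, Polynomial.eval_C]
  have e1 : ∏ b ∈ Gt, (s + b) ^ mt = (∏ b ∈ Gt, (s + b) ^ m) * ∏ b ∈ Gt, (s + b) ^ (mt - m) := by
    rw [← Finset.prod_mul_distrib]
    refine Finset.prod_congr rfl fun b _ => ?_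
    rw [← pow_add]
    congr 1
    omega
  have e2 : ∏ b ∈ Gt, (s + b) ^ m = (∏ b ∈ Gt \ G, (s + b) ^ m) * ∏ b ∈ G, (s + b) ^ m :=
    (Finset.prod_sdiff hG).symm
  have e3 : ∏ b ∈ Gt, (s + b) ^ (mt - m) =
      (s + 1) ^ (mt - m) * ∏ b ∈ Gt.erase 1, (s + b) ^ (mt - m) :=
    (Finset.mul_prod_erase Gt (fun b => (s + b) ^ (mt - m)) h1).symm
  have e4 : (s + 1) ^ (mt - m) = (s + 1) * (s + 1) ^ (mt - m - 1) := by
    rw [← pow_succ']
    congr 1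
    omega
  rw [e1, e2, e3, e4]
  ring

/-- Packet G12. -/
theorem mainSMC (hFB : FanB) (hDF : DualFan) (hEE : ExtExists) (hRE : RedExists)
    (hCP : CoefPole) (hC : Collect) (hNL : NodeLim) (hMo : Moebius) (hPR : PoleR)
    (hL : Link) : MainSMC := by
  classical
  intro k A bb hne hnn h0 hb hlin g E hg hE
  have hk : 0 < k := by
    rcases Nat.eq_zero_or_pos k with h | h
    · subst h
      obtain ⟨v, hv⟩ := hne
      exact absurd (by rwa [Subsingleton.elim v 0] at hv) h0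
    · exact h
  refine ⟨?_, ?_⟩
  · intro I
    refine hDF _ _ (hne.image _) ?_
    intro v hv i
    obtain ⟨u, hu, rfl⟩ := Finset.mem_image.1 hv
    exact mul_nonneg (Int.natCast_nonneg _) (hnn u hu _)
  intro T hT s₀ hs₀
  obtain ⟨Φ, Z, hTri, hcoh, hB⟩ := hFB k A bb hne hnn h0 hb hlin
  obtain ⟨red, hred⟩ := hRE
  -- the functions
  have hex : ∀ (s : ℝ) (D : Fin k → ℕ), ∃ F : (Fin k → Multiset ℝ) → ℝ, 0 < s → (∀ i, 0 < D i) →
      Ext Φ (WR Φ (vG D) Z s) F ∧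
      ∀ (n : ℕ) (blk : Fin n → Fin k) (N : Fin n → ℕ), Function.Surjective blk → (∀ j, 0 < N j) →
        (∀ i, blkGcd blk N i = D i) → ∀ T : Fan n, Adapted (A.image (lift blk N)) T →
        ∀ ρ : Fin n → ℝ, (∀ j, 0 < ρ j) →
        (s + 1) * ZrealR (fun j => (N j : ℝ) * ρ j) (A.image (lift blk N)) T s =
          ∏ j, ((N j : ℝ) * ρ j)⁻¹ - s * ((∏ j, (N j : ℝ)⁻¹) * F (ms blk ρ)) := by
    intro s D
    by_cases h : 0 < s ∧ ∀ i, 0 < D i
    · obtain ⟨F, h1, h2⟩ := hEE k A Z Φ hk hTri D h.2 s h.1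
      exact ⟨F, fun _ _ => ⟨h1, fun n blk N a1 a2 a3 T a4 ρ a5 => by
        convert h2 n blk N a1 a2 a3 T (by convert a4) ρ a5⟩⟩
    · exact ⟨fun _ => 0, fun h1 h2 => absurd ⟨h1, h2⟩ h⟩
  choose F hF using hex
  obtain ⟨C₀, B, hY⟩ := hC red hred k A Z Φ hk hTri g hg T hT F
    (fun s hs D hD => hF s D hs hD)
  -- the terms
  have hnode : ∀ (e : Fin k → ℕ) (x : Fin k → ℝ × ℕ), ∃ (G : Finset ℝ) (m : ℕ)
      (Q : Polynomial ℝ), (∀ i, 0 < e i) → (∀ i, 0 < (x i).1) →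
      (∀ a ∈ G, 0 < a ∧ ((∃ z : ℤ, a = z) ∨
        ∃ S ⊆ Z, multR Φ Z S (Vset e x) (fun i => (x i).1) a ≠ 0)) ∧
      ∀ s : ℝ, 0 < s → FE (F s) e (repl x) * ∏ b ∈ G, (s + b) ^ m = Q.eval s := by
    intro e x
    by_cases h : (∀ i, 0 < e i) ∧ ∀ i, 0 < (x i).1
    · obtain ⟨G, m, Q, h1⟩ := hNL k A Z Φ hk hTri hcoh e x h.1 h.2 (fun s => FE (F s) e)
        (fun s hs => hMo.2.1 k Z Φ s (F s) (fun D hD => (hF s D hs hD).1) e h.1)
      exact ⟨G, m, Q, fun _ _ => h1⟩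
    · exact ⟨∅, 0, 0, fun h1 h2 => absurd ⟨h1, h2⟩ h⟩
  choose Gf mf Qf hQ using hnode
  set J : Finset ((Fin k → ℕ) × (Fin k → ℝ × ℕ)) :=
    (Fintype.piFinset (fun _ : Fin k => Icc 1 B)).biUnion (fun e =>
      (Fintype.piFinset (fun i => (coefG red (g i) (e i)).support)).image (fun x => (e, x)))
    with hJ
  have hmemJ : ∀ e x, (e, x) ∈ J ↔ (∀ i, e i ∈ Icc 1 B) ∧
      ∀ i, coefG red (g i) (e i) (x i) ≠ 0 := by
    intro e x
    rw [hJ, Finset.mem_biUnion]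
    constructor
    · rintro ⟨e', he', h⟩
      obtain ⟨x', hx', h2⟩ := Finset.mem_image.1 h
      rw [Prod.mk.injEq] at h2
      obtain ⟨rfl, rfl⟩ := h2
      refine ⟨Fintype.mem_piFinset.1 he', fun i => ?_⟩
      exact Finsupp.mem_support_iff.1 (Fintype.mem_piFinset.1 hx' i)
    · rintro ⟨h1, h2⟩
      refine ⟨e, Fintype.mem_piFinset.2 h1, Finset.mem_image.2 ⟨x, ?_, rfl⟩⟩
      exact Fintype.mem_piFinset.2 fun i => Finsupp.mem_support_iff.2 (h2 i)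
  have hpos : ∀ e x, (e, x) ∈ J → (∀ i, 0 < e i) ∧ ∀ i, 0 < (x i).1 := by
    intro e x h
    obtain ⟨h1, h2⟩ := (hmemJ e x).1 h
    refine ⟨fun i => ?_, fun i => (hCP red hred (g i) (hg i) (e i) (x i) (h2 i)).1⟩
    have := (Finset.mem_Icc.1 (h1 i)).1
    omega
  -- the sum over `J`
  have hsumJ : ∀ s : ℝ, ∑ e ∈ Fintype.piFinset (fun _ : Fin k => Icc 1 B),
        ∑ x ∈ Fintype.piFinset (fun i => (coefG red (g i) (e i)).support),
          (∏ i, coefG red (g i) (e i) (x i)) * FE (F s) e (repl x) =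
      ∑ y ∈ J, (∏ i, coefG red (g i) (y.1 i) (y.2 i)) * FE (F s) y.1 (repl y.2) := by
    intro s
    rw [hJ, Finset.sum_biUnion]
    · refine Finset.sum_congr rfl fun e _ => ?_
      rw [Finset.sum_image]
      intro x _ x' _ h
      exact (Prod.mk.injEq _ _ _ _ ▸ h).2
    · intro e _ e' _ hne'
      rw [Function.onFun, Finset.disjoint_left]
      intro y hy hy'
      obtain ⟨x, _, h1⟩ := Finset.mem_image.1 hy
      obtain ⟨x', _, h2⟩ := Finset.mem_image.1 hy'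
      apply hne'
      rw [← h2, Prod.mk.injEq] at h1
      exact h1.1
  set Gt : Finset ℝ := insert 1 (J.biUnion fun y => Gf y.1 y.2) with hGt
  set mt : ℕ := ∑ y ∈ J, mf y.1 y.2 + 1 with hmt
  have h1Gt : (1 : ℝ) ∈ Gt := Finset.mem_insert_self _ _
  have hsub : ∀ y ∈ J, Gf y.1 y.2 ⊆ Gt := fun y hy =>
    (Finset.subset_biUnion_of_mem (fun y => Gf y.1 y.2) hy).trans (Finset.subset_insert _ _)
  have hle : ∀ y ∈ J, mf y.1 y.2 + 1 ≤ mt := by
    intro y hy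
    rw [hmt]
    have := Finset.single_le_sum (f := fun y => mf y.1 y.2) (fun _ _ => Nat.zero_le _) hy
    omega
  have hR : ∀ y : (Fin k → ℕ) × (Fin k → ℝ × ℕ), ∃ P : Polynomial ℝ, y ∈ J → ∀ s : ℝ,
      ∏ b ∈ Gt, (s + b) ^ mt = (s + 1) * (∏ b ∈ Gf y.1 y.2, (s + b) ^ mf y.1 y.2) * P.eval s := by
    intro y
    by_cases hy : y ∈ J
    · obtain ⟨P, hP⟩ := ratio_prod _ _ _ _ (hsub y hy) h1Gt (hle y hy)
      exact ⟨P, fun _ => hP⟩
    · exact ⟨0, fun h => absurd h hy⟩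
  choose Rf hRf using hR
  obtain ⟨P₀, hP₀⟩ := ratio_prod ∅ Gt 0 mt (Finset.empty_subset _) h1Gt (by rw [hmt]; omega)
  have hpoly : ∀ s : ℝ, 0 < s → ((C₀ - s * ∑ e ∈ Fintype.piFinset (fun _ : Fin k => Icc 1 B),
        ∑ x ∈ Fintype.piFinset (fun i => (coefG red (g i) (e i)).support),
          (∏ i, coefG red (g i) (e i) (x i)) * FE (F s) e (repl x)) / (s + 1)) *
      ∏ b ∈ Gt, (s + b) ^ mt =
      (Polynomial.C C₀ * P₀ - Polynomial.X * ∑ y ∈ J,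
        Polynomial.C (∏ i, coefG red (g i) (y.1 i) (y.2 i)) * (Qf y.1 y.2 * Rf y)).eval s := by
    intro s hs
    rw [hsumJ]
    have hs1 : s + 1 ≠ 0 := by positivity
    simp only [Polynomial.eval_sub, Polynomial.eval_mul, Polynomial.eval_C, Polynomial.eval_X,
      Polynomial.eval_finsetSum]
    have h1 : (∏ b ∈ Gt, (s + b) ^ mt) / (s + 1) = P₀.eval s := by
      rw [hP₀ s]
      simp only [Finset.prod_empty, mul_one]
      field_simp
    have h2 : ∀ y ∈ J, (∏ i, coefG red (g i) (y.1 i) (y.2 i)) * FE (F s) y.1 (repl y.2) *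
        ((∏ b ∈ Gt, (s + b) ^ mt) / (s + 1)) =
        (∏ i, coefG red (g i) (y.1 i) (y.2 i)) * ((Qf y.1 y.2).eval s * (Rf y).eval s) := by
      intro y hy
      obtain ⟨a1, a2⟩ := hpos y.1 y.2 hy
      rw [← (hQ y.1 y.2 a1 a2).2 s hs, hRf y hy s]
      field_simp
    rw [div_mul_eq_mul_div, mul_div_assoc, sub_mul, h1]
    congr 1
    rw [mul_assoc]
    congr 1
    rw [← h1, Finset.sum_mul]
    exact Finset.sum_congr rfl h2
  obtain ⟨β, hβ, hβs⟩ := hPR (ZF A g T) _ Gt mt _ (fun s hs => hY s hs) hpoly s₀ hs₀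
  rw [hGt, Finset.mem_insert] at hβ
  rcases hβ with rfl | hβ
  · exact Or.inl ⟨-1, by rw [hβs]; push_cast; ring⟩
  obtain ⟨y, hy, hβy⟩ := Finset.mem_biUnion.1 hβ
  obtain ⟨a1, a2⟩ := hpos y.1 y.2 hy
  obtain ⟨_, hcase⟩ := (hQ y.1 y.2 a1 a2).1 β hβy
  rcases hcase with ⟨z, hz⟩ | ⟨S, hS, hm⟩
  · exact Or.inl ⟨-z, by rw [hβs, hz]; push_cast; ring⟩
  right
  obtain ⟨K, hK⟩ := hL k A Z S Φ bb hTri hB hb hS (Vset y.1 y.2) (fun i => (y.2 i).1) β hm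
  refine ⟨K, Vset y.1 y.2 \ K,
    fun i => Complex.exp (2 * Real.pi * Complex.I * (-((y.2 i).1 : ℂ))), Finset.sdiff_disjoint,
    ?_, by rw [hβs]; exact hK⟩
  intro i hi
  have hiV : i ∈ Vset y.1 y.2 := (Finset.mem_sdiff.1 hi).1
  obtain ⟨h1, h2⟩ := (hmemJ y.1 y.2).1 hy
  obtain ⟨b1, b2, b3⟩ := hCP red hred (g i) (hg i) (y.1 i) (y.2 i) (h2 i)
  rcases hE i (y.1 i) (a1 i) _ b2 with h | ⟨c1, c2, c3⟩
  · exact h
  · exfalso
    have hr1 : (y.2 i).1 = 1 := by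
      have h3 : ((y.2 i).1 : ℂ) = 1 := by linear_combination -c2
      exact_mod_cast h3
    have hp : 0 < (y.2 i).2 := by
      by_contra hcon
      have h4 : (y.2 i).2 = 0 := by omega
      unfold Vset at hiV
      exact (Finset.mem_filter.1 hiV).2 ⟨c1, hr1, h4⟩
    have h5 := b3 hp
    rw [c2] at h5
    omega

end Comp

end Mono
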