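import Pool.Agent.Helper53.Comp.MainS
import Pool.Agent.Helper53.Comp.Curve

/-! Assembly of the final theorem. -/

namespace Mono

namespace Comp

open Finset

theorem main (hM : MainSMC) (hC : CurveSMC) (hA : ∀ M : ArrGerm, GoodG M.strata ∧ SMC M.strata M.eig) :
    Main := by
  classical
  intro k P hP h0 g b hb hlin
  have hne : (expo P).Nonempty := by
    obtain ⟨d, hd⟩ := MvPolynomial.ne_zero_iff.1 hP
    exact ⟨_, Finset.mem_image.2 ⟨d, MvPolynomial.mem_support_iff.2 hd, rfl⟩⟩
  have hnn : ∀ v ∈ expo P, ∀ i, 0 ≤ v i := by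
    intro v hv i
    obtain ⟨d, _, rfl⟩ := Finset.mem_image.1 hv
    exact Int.natCast_nonneg _
  have h0A : (0 : Fin k → ℤ) ∉ expo P := by
    intro h
    obtain ⟨d, hd, hd0⟩ := Finset.mem_image.1 h
    rw [MvPolynomial.mem_support_iff] at hd
    apply hd
    have : d = 0 := by
      ext i
      have := congrFun hd0 i
      simpa using this
    rw [this, h0]
  have hG : ∀ i, GoodG (g i).strata ∧ SMC (g i).strata (g i).eig := by
    intro i
    cases g i with
    | curve C => exact hC C
    | arr M => exact hA M
  exact hM k (expo P) b hne hnn h0A hb hlin (fun i => (g i).strata) (fun i => (g i).eig)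
    (fun i => (hG i).1) (fun i => (hG i).2)

end Comp

end Mono
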