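import Pool.Agent.Helper53.Comp.GoalsG

/-!
# Packets C (plane curves) and A (arrangements): the strong monodromy property
-/

namespace Mono

namespace Comp

open Finset

/-! ### Plane curves -/

namespace Graph

variable (G : Graph)

/-- The edges at `p`. -/
def edges (p : ℕ) : Finset (ℕ × ℕ) := G.E.filter (fun e => e.1 = p ∨ e.2 = p)

/-- The other endpoint. -/
def oth (p : ℕ) (e : ℕ × ℕ) : ℕ := if e.1 = p then e.2 else e.1

/-- The number of edges at `p` whose other endpoint is not in `Q`. -/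
def outdeg (Q : Finset ℕ) (p : ℕ) : ℕ := ((edges G p).filter (fun e => oth p e ∉ Q)).card

end Graph

/-- C1: the graph is a tree. -/
def BlowTree : Prop := ∀ G : Graph, Blow G → 0 < G.size ∧ (∀ e ∈ G.E, e.1 < e.2 ∧ e.2 < G.size) ∧
  G.E.card + 1 = G.size ∧
  (∀ S : Set ℕ, (∃ p ∈ S, p < G.size) → (∀ e ∈ G.E, e.1 ∈ S ↔ e.2 ∈ S) → ∀ p < G.size, p ∈ S) ∧
  ∀ r < G.size, ∃ f : ℕ → ℕ × ℕ, (∀ p < G.size, p ≠ r → f p ∈ G.E ∧ ((f p).1 = p ∨ (f p).2 = p)) ∧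
    Set.InjOn f {p | p < G.size ∧ p ≠ r}

/-- C2: the numerical data. -/
def BlowNum : Prop := ∀ G : Graph, Blow G → (∀ p < G.size, 0 < G.N p ∧ 0 < G.ν p) ∧
  (∃ p < G.size, 0 < G.c p) ∧
  (∀ e ∈ G.E, G.ν e.2 * G.N e.1 < G.N e.1 + G.N e.2 * G.ν e.1 ∧
    G.ν e.1 * G.N e.2 < G.N e.2 + G.N e.1 * G.ν e.2) ∧
  ∀ p < G.size, ∃ κ : ℕ, κ * G.N p = ∑ e ∈ Graph.edges G p, G.N (Graph.oth p e) + G.c p ∧
    κ * G.ν p + (Graph.edges G p).card = ∑ e ∈ Graph.edges G p, G.ν (Graph.oth p e) + 2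

/-- C3: the inequality for sets of vertices. -/
def TreeIneq : Prop := BlowTree → ∀ G : Graph, Blow G → ∀ Q : Finset ℕ, (∀ p ∈ Q, p < G.size) →
  ∀ x : ℕ → ℕ, (∀ p ∈ Q, Graph.outdeg G Q p + x p ≠ 1) →
  (∃ p < G.size, p ∉ Q ∨ 0 < x p) →
  ∑ p ∈ Q, (2 - ((Graph.edges G p).card : ℤ) - (x p : ℤ)) ≤ 0

/-- C4: the neighbours of a vertex: numerical data of the other components meeting `E_p`. -/
noncomputable def CurveGerm.nb (C : CurveGerm) (p : ℕ) : Multiset (ℕ × ℕ) :=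
  (Graph.edges C.G p).val.map (fun e => (C.G.N (Graph.oth p e), C.G.ν (Graph.oth p e))) +
    ((C.B p).map (fun b => (b, 1)) : List (ℕ × ℕ))

/-- C4: the relations at a vertex.  With `α = ν_q - N_q ν_p / N_p`: `α < 1`, `∑ α = val p - 2`. -/
def VertexRel : Prop := BlowTree → BlowNum → ∀ (C : CurveGerm), ∀ p < C.G.size,
  (C.nb p).card = C.val p ∧ 0 < C.val p ∧ (∃ κ : ℕ, ((C.nb p).map Prod.fst).sum = κ * C.G.N p) ∧
  (∀ y ∈ C.nb p, 0 < y.1 ∧ 0 < y.2 ∧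
    (y.2 : ℤ) * C.G.N p - (y.1 : ℤ) * C.G.ν p < C.G.N p ∧
    (2 ≤ C.val p → -(C.G.N p : ℤ) < (y.2 : ℤ) * C.G.N p - (y.1 : ℤ) * C.G.ν p) ∧
    (C.val p = 1 → (y.2 : ℤ) * C.G.N p - (y.1 : ℤ) * C.G.ν p = -(C.G.N p : ℤ))) ∧
  ((C.nb p).map (fun y => (y.2 : ℤ) * C.G.N p - (y.1 : ℤ) * C.G.ν p)).sum =
    ((C.val p : ℤ) - 2) * C.G.N p

/-- The number of branches. -/
noncomputable def CurveGerm.br (C : CurveGerm) : ℕ := ∑ p ∈ range C.G.size, (C.B p).length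

/-- C5: a pole comes from a vertex with at least three neighbours, or from a branch. -/
def CurvePole : Prop := BlowTree → BlowNum → VertexRel → ∀ (C : CurveGerm) (e : ℕ), 0 < e →
  ∀ z : ℂ, (Ze C.strata e).denom.eval z = 0 →
  (∃ p < C.G.size, 3 ≤ C.val p ∧ e ∣ C.G.N p ∧ (C.G.N p : ℂ) * z + C.G.ν p = 0) ∨
  ∃ p < C.G.size, ∃ b ∈ C.B p, e ∣ b ∧ (b : ℂ) * z + 1 = 0

/-- C5b: vertices with the same ratio `ν / N`. -/
def SameRatio : Prop := BlowTree → BlowNum → VertexRel → ∀ (C : CurveGerm) (p : ℕ) (z : ℂ),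
  p < C.G.size → 2 ≤ C.val p → (C.G.N p : ℂ) * z + C.G.ν p = 0 →
  (∀ y ∈ C.nb p, Complex.exp (2 * Real.pi * Complex.I * z) ^ y.1 = 1 →
    (y.1 : ℂ) * z + y.2 = 0) ∧
  ∀ e ∈ Graph.edges C.G p, Complex.exp (2 * Real.pi * Complex.I * z) ^ C.G.N (Graph.oth p e) = 1 →
    2 ≤ C.val (Graph.oth p e)

/-- C6: number of branches; the eigenvalue `1`; one branch. -/
def CurveOne : Prop := BlowTree → BlowNum → VertexRel → SameRatio → ∀ (C : CurveGerm),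
  0 < C.br ∧ C.mult 1 = 2 - C.br ∧ (C.br ≠ 1 → (1 : ℂ) ∈ C.eig) ∧
  (C.br = 1 → (Ze C.strata 1).denom.rootMultiplicity (-1) ≤ 1)

/-- C7: a vertex with at least three neighbours gives an eigenvalue. -/
def Rupture : Prop := BlowTree → BlowNum → TreeIneq → VertexRel → SameRatio → CurveOne →
  ∀ (C : CurveGerm) (p : ℕ) (z : ℂ), p < C.G.size → 3 ≤ C.val p →
  (C.G.N p : ℂ) * z + C.G.ν p = 0 → Complex.exp (2 * Real.pi * Complex.I * z) ∈ C.eig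

/-- C8. -/
def CurveSMC : Prop := ∀ C : CurveGerm, GoodG C.strata ∧ SMC C.strata C.eig

/-! ### Arrangements -/

/-- The axioms of the rank function of a matroid. -/
structure RankFn {α : Type} [DecidableEq α] (r : Finset α → ℕ) : Prop where
  empty : r ∅ = 0
  mono : ∀ S T, S ⊆ T → r S ≤ r T
  insert : ∀ S x, r (insert x S) ≤ r S + 1
  submod : ∀ S T, r (S ∪ T) + r (S ∩ T) ≤ r S + r T

/-- The alternating sum of the ranks. -/
def altR {α : Type} [DecidableEq α] (r : Finset α → ℕ) (G E : Finset α) : ℤ :=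
  ∑ S ∈ E.powerset, (-1) ^ S.card * (r (S ∪ G) : ℤ)

/-- The minor on `E` over `G` is connected. -/
def ConnR {α : Type} [DecidableEq α] (r : Finset α → ℕ) (G E : Finset α) : Prop :=
  ∀ A B : Finset α, A.Nonempty → B.Nonempty → Disjoint A B → A ∪ B = E →
    r (A ∪ G) + r (B ∪ G) ≠ r (E ∪ G) + r G

/-- A1. -/
def ArrRank : Prop := ∀ M : ArrGerm, RankFn M.rk ∧ (∀ h, M.rk {h} = 1) ∧
  (∀ F, M.IsFlat F ↔ ∀ h, h ∉ F → M.rk (insert h F) = M.rk F + 1) ∧ ∀ S, M.rk S ≤ S.card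

/-- A2: Crapo's theorem. -/
def Crapo : Prop := ∀ (α : Type) [DecidableEq α] (r : Finset α → ℕ), RankFn r →
  ∀ G E : Finset α, Disjoint G E → E.Nonempty →
  0 ≤ (-1 : ℤ) ^ (r (E ∪ G) - r G) * altR r G E ∧
  (ConnR r G E → (∀ x ∈ E, r (insert x G) = r G + 1) → altR r G E ≠ 0) ∧
  (¬ ConnR r G E → altR r G E = 0)

open Classical in
/-- The chains of nonempty flats with largest element `F`. -/
noncomputable def ArrGerm.chainsF (M : ArrGerm) (F : Finset (Fin M.m)) :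
    Finset (Finset (Finset (Fin M.m))) :=
  univ.filter (fun C => F ∈ C ∧ (∀ G ∈ C, M.IsFlat G ∧ G.Nonempty ∧ G ⊆ F) ∧
    ∀ G ∈ C, ∀ H ∈ C, G ⊆ H ∨ H ⊆ G)

open Classical in
/-- The twisted zeta function of the flat `F`. -/
noncomputable def ArrGerm.ZA (M : ArrGerm) (e : ℕ) (F : Finset (Fin M.m)) : RatFunc ℂ :=
  ∑ C ∈ M.chainsF F, if ∀ G ∈ C, e ∣ M.Nn G then
    RatFunc.C ((∏ G ∈ C, M.eul (M.pred C G) G : ℤ) : ℂ) *
      ∏ G ∈ C, 1 / (RatFunc.C (M.Nn G : ℂ) * RatFunc.X + RatFunc.C (M.rk G : ℂ)) else 0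

open Classical in
/-- A3: the recursion. -/
def ArrRec : Prop := ∀ (M : ArrGerm) (e : ℕ), Ze M.strata e = M.ZA e univ ∧
  ∀ F, M.IsFlat F → F.Nonempty → M.ZA e F =
    (if e ∣ M.Nn F then 1 / (RatFunc.C (M.Nn F : ℂ) * RatFunc.X + RatFunc.C (M.rk F : ℂ)) else 0) *
      (RatFunc.C (M.eul ∅ F : ℂ) + ∑ G ∈ univ.filter (fun G => M.IsFlat G ∧ G.Nonempty ∧ G ⊂ F),
        RatFunc.C (M.eul G F : ℂ) * M.ZA e G)

/-- A4: the poles come from connected flats. -/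
def ArrPole : Prop := ArrRank → Crapo → ArrRec → ∀ (M : ArrGerm) (e : ℕ), 0 < e →
  ∀ F, M.IsFlat F → F.Nonempty → ∀ z : ℂ, (M.ZA e F).denom.eval z = 0 →
  ∃ G, M.IsFlat G ∧ G.Nonempty ∧ ConnR M.rk ∅ G ∧ e ∣ M.Nn G ∧ (M.Nn G : ℂ) * z + M.rk G = 0

/-- A5. -/
def ArrSMC : Prop := ArrRank → Crapo → ArrRec → ArrPole →
  ∀ M : ArrGerm, GoodG M.strata ∧ SMC M.strata M.eig

/-- The final theorem. -/
def Main : Prop := ∀ (k : ℕ) (P : MvPolynomial (Fin k) ℂ), P ≠ 0 → P.coeff 0 = 0 →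
  ∀ (g : Fin k → Germ) (b : Fin k → ℝ), (∀ i, 0 < b i) → LinearIndependent ℚ b →
  (∀ I : (i : Fin k) → Fin (g i).strata.length,
    ∃ T : Fan (dimD fun i => ((g i).strata.get (I i)).2),
      Adapted (chartA (expo P) fun i => ((g i).strata.get (I i)).2) T) ∧
  ∀ T : ∀ I : (i : Fin k) → Fin (g i).strata.length,
    Fan (dimD fun i => ((g i).strata.get (I i)).2),
  (∀ I, Adapted (chartA (expo P) fun i => ((g i).strata.get (I i)).2) (T I)) →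
  ∀ s₀ : ℂ, (ZF (expo P) (fun i => (g i).strata) T).denom.eval s₀ = 0 → (∃ z : ℤ, s₀ = z) ∨
    ∃ (K V : Finset (Fin k)) (lam : Fin k → ℂ), Disjoint V K ∧ (∀ i ∈ V, lam i ∈ (g i).eig) ∧
      multS (expo P) K b V lam (Complex.exp (2 * Real.pi * Complex.I * s₀)) ≠ 0

end Comp

end Mono
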