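import Pool.Agent.Helper62.MonoW.Defs
import Pool.Agent.Helper20.Mono.BaseS

/-!
# Compositions `P(g_1, …, g_k)` of germs in separate variables: the combinatorial expressions

`P` is a polynomial in `k` variables, Newton nondegenerate, `P(0) = 0`; `g_1, …, g_k` are germs of
holomorphic functions in separate variables, each of them a plane curve germ (reduced or not) or a
product of linear forms (with multiplicities).

* `Stratum`    : a stratum of the divisor of an embedded resolution of a germ, over the origin: its
                 Euler characteristic, and the list of the numerical data `(N, ν)` of the components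
                 that contain it;
* `Graph`, `Blow`, `CurveGerm` : the weighted dual graph of a sequence of point blowing ups which
                 resolves a plane curve germ;
* `ArrGerm`    : a product of linear forms;
* `Germ`       : a germ of one of the two kinds, with its strata (`Germ.strata`) and the set of its
                 reduced monodromy eigenvalues near the origin (`Germ.eig`);
* `chartA A D` : the exponents of `P (∏ y_{1j}^{N_{1j}}, …, ∏ y_{kj}^{N_{kj}})`, `A = expo P`;
* `ZF A g T`   : the local topological zeta function of `P(g_1, …, g_k)` at the origin;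
* `multS`      : order of vanishing of the zeta function of the monodromy of `P` on a slice, with
                 coefficients in a local system of rank one extended by zero.
-/

namespace Mono

namespace Comp

open Finset

/-! ### Strata and charts -/

/-- A stratum: its Euler characteristic, and the numerical data `(N, ν)` of the components of the
divisor which contain it. -/
abbrev Stratum : Type := ℤ × List (ℕ × ℕ)

section chart

variable {k : ℕ}

/-- The number of coordinates of a chart. -/
def dimD (D : Fin k → List (ℕ × ℕ)) : ℕ := ∑ i, (D i).length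

/-- The coordinates of the chart are indexed by pairs: a block `i`, a place in the list `D i`. -/
def posD (D : Fin k → List (ℕ × ℕ)) (j : Fin (dimD D)) : (i : Fin k) × Fin (D i).length :=
  finSigmaFinEquiv.symm j

/-- The block of a coordinate. -/
def blkD (D : Fin k → List (ℕ × ℕ)) (j : Fin (dimD D)) : Fin k := (posD D j).1

/-- The multiplicity `N` of a coordinate. -/
def ND (D : Fin k → List (ℕ × ℕ)) (j : Fin (dimD D)) : ℕ := ((D (posD D j).1).get (posD D j).2).1

/-- The number `ν` of a coordinate. -/
def nuD (D : Fin k → List (ℕ × ℕ)) (j : Fin (dimD D)) : ℕ :=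
  ((D (posD D j).1).get (posD D j).2).2

/-- The exponent vector of the monomial `t^u` after the substitution
`t_i = ∏_{j in block i} y_j^{N_j}`. -/
def lift {n : ℕ} (blk : Fin n → Fin k) (N : Fin n → ℕ) (u : Fin k → ℤ) : Fin n → ℤ :=
  fun j => (N j : ℤ) * u (blk j)

/-- The exponents of `P` in the chart. -/
def chartA (A : Finset (Fin k → ℤ)) (D : Fin k → List (ℕ × ℕ)) : Finset (Fin (dimD D) → ℤ) :=
  A.image (lift (blkD D) (ND D))

/-- The local topological zeta function of `P(g_1, …, g_k)` at the origin, `A = expo P`: the sum
over the products of strata, of the Euler characteristic times the Denef–Loeser expression of the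
function `P (∏ y^N, …)` and the form `∏ y^{ν - 1} dy`. -/
noncomputable def ZF (A : Finset (Fin k → ℤ)) (g : Fin k → List Stratum)
    (T : ∀ I : (i : Fin k) → Fin (g i).length, Fan (dimD fun i => ((g i).get (I i)).2)) :
    RatFunc ℂ :=
  ∑ I : (i : Fin k) → Fin (g i).length,
    RatFunc.C ((∏ i, ((g i).get (I i)).1 : ℤ) : ℂ) *
      ZDLw (nuD fun i => ((g i).get (I i)).2) (chartA A fun i => ((g i).get (I i)).2) (T I)

open Classical in
/-- The order of vanishing at `t₀` (up to a sign) of the monodromy zeta function of `P` on the slice
`x_i = c_i t^{b_i}` (`i ∈ K`), `|x_i| < t^{b_i}` (`i ∉ K`), with coefficients in the extension by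
zero of the local system of rank one on `{x_i ≠ 0, i ∈ V}` with monodromy `lam i` around `x_i = 0`:
the sum, over the faces `φ` met by the slice whose projection along `ℝ^K` spans a hyperplane of
the smallest coordinate subspace containing it, this subspace containing `ℝ^V`, of
`(-1)^dim Vol` of that projection, if `t₀^N = ∏_{i ∈ V} lam_i^{κ_i}`, where `N` is the lattice
distance from the origin and `κ` the integral linear form equal to `N` on the projection. -/
noncomputable def multS (A : Finset (Fin k → ℤ)) (K : Finset (Fin k)) (b : Fin k → ℝ)
    (V : Finset (Fin k)) (lam : Fin k → ℂ) (t₀ : ℂ) : ℤ :=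
  ∑ φ ∈ (cellsS A K b).filter (fun φ => dimF (projS K φ) + 1 = (cs (projS K φ)).card ∧
      V ⊆ cs (projS K φ) ∧ ∃ κ : Fin k → ℤ, (∀ i, i ∉ cs (projS K φ) → κ i = 0) ∧
        (∀ v ∈ projS K φ, κ ⬝ᵥ v = (latDist (projS K φ) : ℤ)) ∧
        t₀ ^ latDist (projS K φ) = ∏ i ∈ V, lam i ^ κ i),
    (-1) ^ dimF (projS K φ) * nvol (projS K φ)

end chart

/-! ### Plane curve germs -/

/-- A weighted graph: the vertices are `0, …, size - 1`; the numbers `N` and `ν` of the exceptional
curve `E_p`, its intersection number `c` with the strict transform of the curve, and the pairs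
`(p, q)`, `p < q`, of intersecting exceptional curves. -/
structure Graph where
  size : ℕ
  N : ℕ → ℕ
  ν : ℕ → ℕ
  c : ℕ → ℕ
  E : Finset (ℕ × ℕ)

/-- Blowing up of the origin, a point of multiplicity `m` of the curve. -/
def Graph.start (m : ℕ) : Graph := ⟨1, fun _ => m, fun _ => 2, fun _ => m, ∅⟩

/-- Blowing up of a point of multiplicity `m` of the strict transform, which lies on `E_j` and on no
other exceptional curve. -/
def Graph.free (G : Graph) (j m : ℕ) : Graph :=
  ⟨G.size + 1, Function.update G.N G.size (G.N j + m), Function.update G.ν G.size (G.ν j + 1),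
    Function.update (Function.update G.c j (G.c j - m)) G.size m, insert (j, G.size) G.E⟩

/-- Blowing up of the point `E_i ∩ E_j`, of multiplicity `m` on the strict transform. -/
def Graph.cross (G : Graph) (i j m : ℕ) : Graph :=
  ⟨G.size + 1, Function.update G.N G.size (G.N i + G.N j + m),
    Function.update G.ν G.size (G.ν i + G.ν j),
    Function.update (Function.update (Function.update G.c i (G.c i - m)) j (G.c j - m)) G.size m,
    insert (i, G.size) (insert (j, G.size) (G.E.erase (i, j)))⟩

/-- The weighted graphs of the sequences of point blowing ups. -/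
inductive Blow : Graph → Prop
  | start (m : ℕ) : 0 < m → Blow (Graph.start m)
  | free (G : Graph) (j m : ℕ) : Blow G → j < G.size → 0 < m → m ≤ G.c j → Blow (G.free j m)
  | cross (G : Graph) (i j m : ℕ) : Blow G → (i, j) ∈ G.E → 0 < m → m ≤ G.c i → m ≤ G.c j →
      Blow (G.cross i j m)

/-- The embedded resolution of a plane curve germ, obtained by at least one blowing up: the graph
`G`, and for each exceptional curve `E_p` the list `B p` of the multiplicities of the branches whose
strict transform meets `E_p` (transversally, at different points). -/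
structure CurveGerm where
  G : Graph
  blow : Blow G
  B : ℕ → List ℕ
  pos : ∀ p < G.size, ∀ b ∈ B p, 0 < b
  sum : ∀ p < G.size, (B p).sum = G.c p

/-- The number of components that meet `E_p`. -/
def CurveGerm.val (C : CurveGerm) (p : ℕ) : ℕ :=
  (C.G.E.filter (fun e => e.1 = p ∨ e.2 = p)).card + (C.B p).length

/-- The strata: the `E_p` without the points on other components, the points `E_p ∩ E_q`, and the
points of `E_p` on the branches. -/
noncomputable def CurveGerm.strata (C : CurveGerm) : List Stratum :=
  (List.range C.G.size).map (fun p => (2 - (C.val p : ℤ), [(C.G.N p, C.G.ν p)])) ++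
    C.G.E.toList.map (fun e => (1, [(C.G.N e.1, C.G.ν e.1), (C.G.N e.2, C.G.ν e.2)])) ++
    (List.range C.G.size).flatMap
      (fun p => (C.B p).map (fun b => (1, [(C.G.N p, C.G.ν p), (b, 1)])))

open Classical in
/-- The multiplicity of `z` in the monodromy of `H^0 - H^1` of the Milnor fibre at the origin
(A'Campo). -/
noncomputable def CurveGerm.mult (C : CurveGerm) (z : ℂ) : ℤ :=
  ∑ p ∈ range C.G.size, if z ^ C.G.N p = 1 then 2 - (C.val p : ℤ) else 0

open Classical in
/-- Eigenvalues of the monodromy on the reduced cohomology of the Milnor fibres at the points of the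
curve: at the origin, or at the other points of a multiple branch. -/
def CurveGerm.eig (C : CurveGerm) : Set ℂ :=
  {z | C.mult z - (if z = 1 then 1 else 0) ≠ 0 ∨
    (z ≠ 1 ∧ ∃ p < C.G.size, ∃ b ∈ C.B p, z ^ b = 1)}

/-! ### Products of linear forms -/

/-- A product of powers of linear forms: `∏_h (∑_i v_{h,i} x_i)^{μ_h}`, `h < m`. -/
structure ArrGerm where
  m : ℕ
  d : ℕ
  v : Fin m → Fin d → ℂ
  μ : Fin m → ℕ
  pos : 0 < m
  ne : ∀ h, v h ≠ 0
  μpos : ∀ h, 0 < μ h

namespace ArrGerm

variable (M : ArrGerm)

/-- The rank of a set of linear forms. -/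
noncomputable def rk (S : Finset (Fin M.m)) : ℕ :=
  Module.finrank ℂ (Submodule.span ℂ (M.v '' (S : Set (Fin M.m))))

/-- `F` contains every form of its linear span. -/
def IsFlat (F : Finset (Fin M.m)) : Prop :=
  ∀ h, M.v h ∈ Submodule.span ℂ (M.v '' (F : Set (Fin M.m))) → h ∈ F

/-- The multiplicity of the product along the subspace `⋂_{h ∈ F} ker v_h`. -/
def Nn (F : Finset (Fin M.m)) : ℕ := ∑ h ∈ F, M.μ h

/-- The Euler characteristic of the complement of the projective arrangement of the forms
in `F \ G` modulo the span of `G` (`G ⊂ F`, `G ≠ F`): `χ'(1)`, `χ` the characteristic polynomial. -/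
noncomputable def eul (G F : Finset (Fin M.m)) : ℤ :=
  -∑ S ∈ (F \ G).powerset, (-1) ^ S.card * (M.rk (S ∪ G) : ℤ)

open Classical in
/-- The chains of nonempty flats which contain the largest one. -/
noncomputable def chains : Finset (Finset (Finset (Fin M.m))) :=
  univ.filter (fun C => univ ∈ C ∧ (∀ F ∈ C, M.IsFlat F ∧ F.Nonempty) ∧
    ∀ F ∈ C, ∀ G ∈ C, F ⊆ G ∨ G ⊆ F)

/-- The largest element of the chain `C` below `F` (`∅` if there is none). -/
def pred (C : Finset (Finset (Fin M.m))) (F : Finset (Fin M.m)) : Finset (Fin M.m) :=
  (C.filter (fun G => G ⊂ F)).sup id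

/-- The strata over the origin of the wonderful model (blowing up of all intersections, in the order
of increasing dimension). -/
noncomputable def strata : List Stratum :=
  M.chains.toList.map (fun C =>
    (∏ F ∈ C, M.eul (M.pred C F) F, C.toList.map (fun F => (M.Nn F, M.rk F))))

open Classical in
/-- Eigenvalues of the monodromy on the reduced cohomology of the Milnor fibres at the points of the
arrangement: at a general point of `⋂_{h ∈ F} ker v_h` the zeta function of the monodromy is a
power of `1 - t^N`, `N = Nn F`. -/
def eig : Set ℂ :=
  {z | ∃ F, M.IsFlat F ∧ F.Nonempty ∧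
    (if z ^ M.Nn F = 1 then M.eul ∅ F else 0) - (if z = 1 then 1 else 0) ≠ 0}

end ArrGerm

/-- A plane curve germ, or a product of linear forms. -/
inductive Germ
  | curve (C : CurveGerm)
  | arr (M : ArrGerm)

/-- The strata of the resolution. -/
noncomputable def Germ.strata : Germ → List Stratum
  | .curve C => C.strata
  | .arr M => M.strata

/-- The reduced eigenvalues of the monodromy near the origin. -/
def Germ.eig : Germ → Set ℂ
  | .curve C => C.eig
  | .arr M => M.eig

end Comp

end Mono
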